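import Pool.Agent.Run7.h271.NE.Inv

set_option autoImplicit false

/-!
The dichotomy for two-variable logic over nested equivalence relations.
-/

namespace Pool.Agent.Run7.h271.NE

open FirstOrder Set Topology MeasureTheory Pool.Agent.H565R2.FO2
open Pool.Agent.H565R2.LO2 (PerfK perfK_of_inv)

variable {L : FirstOrder.Language.{0, 0}} {k : ℕ} {ε : Fin k → F2 L} {Φ : F2 L}

theorem E_total {M : Type} (ε : Fin k → F2 L) (I : Interp L M) (x y : M) :
    E ε I (k + 1) x y := fun h => absurd h (lt_irrefl _)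

/-- The level of a pair. -/
theorem lev_ex (c : KE ε Φ) {x y : ℕ} (hxy : x ≠ y) :
    ∃ m, E ε (toI c.1) (m + 1) x y ∧ ¬ E ε (toI c.1) m x y := by
  classical
  have hex : ∃ m, E ε (toI c.1) m x y := ⟨k + 1, E_total _ _ _ _⟩
  have h1 := Nat.find_spec hex
  have h2 : Nat.find hex ≠ 0 := by
    intro h
    rw [h] at h1
    exact hxy h1
  obtain ⟨m, hm⟩ := Nat.exists_eq_succ_of_ne_zero h2
  refine ⟨m, by rw [← Nat.succ_eq_add_one, ← hm]; exact h1, Nat.find_min hex (by omega)⟩

theorem lev_iff (c : KE ε Φ) {x y m : ℕ} (h1 : E ε (toI c.1) (m + 1) x y)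
    (h0 : ¬ E ε (toI c.1) m x y) (j : ℕ) : E ε (toI c.1) j x y ↔ m < j := by
  constructor
  · intro h
    by_contra hc
    exact h0 ((KE_nest c).mono (by omega) h)
  · intro h
    exact (KE_nest c).mono h h1

theorem det [∀ n, Countable (L.Relations n)] (hε : ∀ j, subs (ε j) ⊆ subs Φ)
    (hP : ¬ PerfK (KE ε Φ)) (c : KE ε Φ) (x y m : ℕ)
    (h1 : E ε (toI c.1) (m + 1) x y) (h0 : ¬ E ε (toI c.1) m x y) (i : Bool → ℕ)
    (him : ∀ β, i β ≤ m) (hR : ∀ β, Rep hP (i β) (rl hP (pick x y β) c))
    (d d' : Dat L) (hd : d ∈ AlE ε Φ) (hd' : d' ∈ AlE ε Φ)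
    (hdl : ∀ j, El ε d j ↔ m < j) (hdl' : ∀ j, El ε d' j ↔ m < j)
    (hd0 : d.map (fun _ => false) = dat (toI c.1) (subs Φ) x x)
    (hd1 : d.map (fun _ => true) = dat (toI c.1) (subs Φ) y y)
    (hd0' : d'.map (fun _ => false) = dat (toI c.1) (subs Φ) x x)
    (hd1' : d'.map (fun _ => true) = dat (toI c.1) (subs Φ) y y) : d = d' := by
  by_contra hne
  have hs : ∀ β u v, ∃ s : Dat L, E ε (toI c.1) (i β) (pick x y β) u →
      E ε (toI c.1) (i β) (pick x y β) v → s ∈ AlE ε Φ ∧ (∀ j, El ε s j ↔ i β < j) ∧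
      s.map (fun _ => false) = dat (toI c.1) (subs Φ) u u ∧
      s.map (fun _ => true) = dat (toI c.1) (subs Φ) v v := by
    intro β u v
    by_cases hu : E ε (toI c.1) (i β) (pick x y β) u
    · by_cases hv : E ε (toI c.1) (i β) (pick x y β) v
      · obtain ⟨c0, z, z', n0, n1, r0, r1⟩ := hR β
        obtain ⟨u1, hu1, hu2⟩ := rl_get hP r0.symm hu
        obtain ⟨v1, hv1, hv2⟩ := rl_get hP r1.symm hv
        have e1 : E ε (toI c0.1) (i β + 1) u1 v1 := by
          have a1 := (KE_nest c0).mono (Nat.le_succ _) ((KE_nest c0).symm hu1)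
          have a2 := (KE_nest c0).mono (Nat.le_succ _) hv1
          exact (KE_nest c0).trans a1 ((KE_nest c0).trans n1 a2)
        have e0 : ¬ E ε (toI c0.1) (i β) u1 v1 := by
          intro h
          exact n0 ((KE_nest c0).trans hu1 ((KE_nest c0).trans h ((KE_nest c0).symm hv1)))
        refine ⟨dat (toI c0.1) (subs Φ) u1 v1, fun _ _ => ⟨alE_dat c0 _ _, fun j => ?_, ?_, ?_⟩⟩
        · rw [El_dat _ _ _ hε]; exact lev_iff c0 e1 e0 j
        · rw [dat_map]; exact hu2
        · rw [dat_map]; exact hv2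
      · exact ⟨d, fun _ h => absurd h hv⟩
    · exact ⟨d, fun h => absurd h hu⟩
  choose s hs using hs
  have hdiff : ∃ n R v, ¬ (d.a n R v ↔ d'.a n R v) := by
    by_contra hc
    push Not at hc
    apply hne
    apply Dat.ext'
    · have a1 := hdl 0
      have a2 := hdl' 0
      exact a1.trans a2.symm
    · exact hc
    · intro β c ψ
      have e0 : d.l false = d'.l false := by
        have h1 : (d.map (fun _ => false)).l false = (d'.map (fun _ => false)).l false := by
          rw [hd0, hd0']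
        exact h1
      have e1 : d.l true = d'.l true := by
        have h1 : (d.map (fun _ => true)).l false = (d'.map (fun _ => true)).l false := by
          rw [hd1, hd1']
        exact h1
      cases β
      · rw [e0]
      · rw [e1]
  obtain ⟨n, R, v, hv⟩ := hdiff
  apply hP
  by_cases ha : d.a n R v
  · have hb : ¬ d'.a n R v := fun h2 => hv ⟨fun _ => h2, fun _ => ha⟩
    exact CfE.perf (ε := ε) (Φ := Φ)
      { hε := hε, I := toI c.1, hI := c.2, x := x, y := y, m := m, h1 := h1, h0 := h0, i := i, him := him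
        s := s
        hs := fun β u v hu hv => (hs β u v hu hv).1
        hsl := fun β u v hu hv => (hs β u v hu hv).2.1
        hs0 := fun β u v hu hv => (hs β u v hu hv).2.2.1
        hs1 := fun β u v hu hv => (hs β u v hu hv).2.2.2
        d := fun β => cond β d d'
        hd := by rintro (_ | _) <;> assumption
        hdl := by rintro (_ | _) <;> assumption
        hd0 := by rintro (_ | _) <;> assumption
        hd1 := by rintro (_ | _) <;> assumption
        n := n, R := R, v := v, hv0 := hb, hv1 := ha }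
  · have hb : d'.a n R v := by
      by_contra h2
      exact hv ⟨fun h => absurd h ha, fun h => absurd h h2⟩
    exact CfE.perf (ε := ε) (Φ := Φ)
      { hε := hε, I := toI c.1, hI := c.2, x := x, y := y, m := m, h1 := h1, h0 := h0, i := i, him := him
        s := s
        hs := fun β u v hu hv => (hs β u v hu hv).1
        hsl := fun β u v hu hv => (hs β u v hu hv).2.1
        hs0 := fun β u v hu hv => (hs β u v hu hv).2.2.1
        hs1 := fun β u v hu hv => (hs β u v hu hv).2.2.2
        d := fun β => cond β d' d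
        hd := by rintro (_ | _) <;> assumption
        hdl := by rintro (_ | _) <;> assumption
        hd0 := by rintro (_ | _) <;> assumption
        hd1 := by rintro (_ | _) <;> assumption
        n := n, R := R, v := v, hv0 := ha, hv1 := hb }

/-- A bijection that preserves profiles and levels is an isomorphism. -/
theorem iso_of_pf [∀ n, Countable (L.Relations n)] (hε : ∀ j, subs (ε j) ⊆ subs Φ)
    (hP : ¬ PerfK (KE ε Φ))
    (h2 : ∀ n, 2 < n → IsEmpty (L.Relations n)) (c c' : KE ε Φ) (g : ℕ ≃ ℕ)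
    (hpf : ∀ x, pf hP (g x) c' = pf hP x c)
    (hE : ∀ i x y, E ε (toI c'.1) i (g x) (g y) ↔ E ε (toI c.1) i x y) : Iso c.1 c'.1 := by
  have hrl : ∀ x, rl hP (g x) c' = rl hP x c := fun x => pf_rl hP (hpf x).symm
  have hdiag : ∀ x, dat (toI c'.1) (subs Φ) (g x) (g x) = dat (toI c.1) (subs Φ) x x :=
    fun x => rl_dat hP (hrl x).symm
  have hking : ∀ x y, x ≠ y → Kg hP c x y →
      dat (toI c'.1) (subs Φ) (g x) (g y) = dat (toI c.1) (subs Φ) x y := by
    intro x y hxy hK
    obtain ⟨y', -, h4, h5⟩ := pf_get hP (hpf x).symm hK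
    obtain ⟨m, m1, m0⟩ := lev_ex c hxy
    have h6 : y' = g y := by
      by_contra hne
      obtain ⟨i, i1, i0⟩ := lev_ex c' hne
      have h7 : E ε (toI c'.1) (m + 1) (g x) y' := by
        rw [← El_dat ε _ (subs Φ) hε, h4, El_dat _ _ _ hε]; exact m1
      have h8 : E ε (toI c'.1) (m + 1) y' (g y) :=
        (KE_nest c').trans ((KE_nest c').symm h7) ((hE _ _ _).2 m1)
      have h9 : i < m + 1 := (lev_iff c' i1 i0 _).1 h8
      have h10 : ¬ E ε (toI c.1) i x y := fun h => m0 ((KE_nest c).mono (by omega) h)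
      exact hK i h10 ⟨c', y', g y, i0, i1, h5, hrl y⟩
    rw [← h6]; exact h4
  have hall : ∀ x y, dat (toI c'.1) (subs Φ) (g x) (g y) = dat (toI c.1) (subs Φ) x y := by
    intro x y
    by_cases hxy : x = y
    · subst hxy; exact hdiag x
    · by_cases hy : Kg hP c x y
      · exact hking x y hxy hy
      · by_cases hx : Kg hP c y x
        · have h3 := hking y x (Ne.symm hxy) hx
          have h4 := congrArg (fun d => Dat.map d not) h3
          simp only [dat_map] at h4
          exact h4
        · obtain ⟨m, m1, m0⟩ := lev_ex c hxy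
          unfold Kg at hx hy
          push Not at hx hy
          obtain ⟨i, i0, i1⟩ := hx
          obtain ⟨i', i0', i1'⟩ := hy
          have hi : i ≤ m := by
            by_contra hc
            exact i0 ((KE_nest c).symm ((KE_nest c).mono (by omega) m1))
          have hi' : i' ≤ m := by
            by_contra hc
            exact i0' ((KE_nest c).mono (by omega) m1)
          refine det hε hP c x y m m1 m0 (fun β => cond β i' i) ?_ ?_ _ _ (alE_dat c' _ _)
            (alE_dat c _ _) ?_ ?_ ?_ ?_ ?_ ?_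
          · rintro (_ | _)
            · exact hi
            · exact hi'
          · rintro (_ | _)
            · exact i1
            · exact i1'
          · intro j
            rw [El_dat _ _ _ hε, hE]; exact lev_iff c m1 m0 j
          · intro j
            rw [El_dat _ _ _ hε]; exact lev_iff c m1 m0 j
          · rw [dat_map]; exact hdiag x
          · rw [dat_map]; exact hdiag y
          · rw [dat_map]; rfl
          · rw [dat_map]; rfl
  refine ⟨g, fun n R t => ?_⟩
  have hrep : ∃ (x y : ℕ) (v : Fin n → Bool), t = fun k => pick x y (v k) := by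
    rcases Nat.lt_or_ge 2 n with hn | hn
    · exact (h2 n hn).elim R
    · interval_cases n
      · exact ⟨0, 0, fun _ => false, Subsingleton.elim _ _⟩
      · refine ⟨t 0, t 0, fun _ => false, ?_⟩
        funext k
        rw [Subsingleton.elim k 0]; rfl
      · refine ⟨t 0, t 1, ![false, true], ?_⟩
        funext k
        fin_cases k <;> rfl
  obtain ⟨x, y, v, rfl⟩ := hrep
  have h3 : (dat (toI c'.1) (subs Φ) (g x) (g y)).a n R v ↔
      (dat (toI c.1) (subs Φ) x y).a n R v := by
    rw [hall]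
  have h4 : (fun k => g (pick x y (v k))) = fun k => pick (g x) (g y) (v k) := by
    funext k; cases v k <;> rfl
  rw [h4]
  have h5 : (c'.1 ⟨n, R, fun k => pick (g x) (g y) (v k)⟩ = true) ↔
      (c.1 ⟨n, R, fun k => pick x y (v k)⟩ = true) := h3
  rw [Bool.eq_iff_iff]
  exact h5.symm

/-- The dichotomy in binary languages. -/
theorem binary_main [∀ n, Countable (L.Relations n)] (ε : Fin k → F2 L) (Φ : F2 L)
    (hε : ∀ j, subs (ε j) ⊆ subs Φ)
    (h2 : ∀ n, 2 < n → IsEmpty (L.Relations n)) :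
    (∃ g : ℕ → Code L, ∀ c ∈ KE ε Φ, ∃ n, Iso c (g n)) ∨ PerfK (KE ε Φ) := by
  classical
  by_cases hP : PerfK (KE ε Φ)
  · exact Or.inr hP
  · left
    obtain ⟨G, -, hC⟩ := cmp_all hP (pf hP) (pf_inv hP) (k + 1)
    have hiso : ∀ c c' : KE ε Φ, G 0 c = G 0 c' → Iso c.1 c'.1 := by
      intro c c' h
      obtain ⟨f, f1, f2, f3⟩ := hC.2 c c' 0 0 h
      have hbij : Function.Bijective f := by
        have e1 : {y | E ε (toI c.1) (k + 1) 0 y} = Set.univ :=
          eq_univ_of_forall fun y => E_total _ _ _ _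
        have e2 : {y | E ε (toI c'.1) (k + 1) 0 y} = Set.univ :=
          eq_univ_of_forall fun y => E_total _ _ _ _
        rw [e1, e2] at f1
        exact Set.bijOn_univ.1 f1
      refine iso_of_pf hε hP h2 c c' (Equiv.ofBijective f hbij) ?_ ?_
      · intro x
        exact f2 x (E_total _ _ _ _)
      · intro i x y
        exact f3 i x y (E_total _ _ _ _) (E_total _ _ _ _)
    let g : ℕ → Code L := fun n =>
      if h : ∃ c : KE ε Φ, G 0 c = n then (Classical.choose h).1 else fun _ => false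
    refine ⟨g, fun c hc => ⟨G 0 ⟨c, hc⟩, ?_⟩⟩
    have hex : ∃ c' : KE ε Φ, G 0 c' = G 0 ⟨c, hc⟩ := ⟨_, rfl⟩
    have hg : g (G 0 ⟨c, hc⟩) = (Classical.choose hex).1 := dif_pos hex
    rw [hg]
    exact hiso ⟨c, hc⟩ _ (Classical.choose_spec hex).symm

theorem cx_KE {c0 : Code L} (h : c0 ∈ KE ε Φ) (x : ℕ → Bool) : cx c0 x ∈ KE ε Φ := by
  refine ⟨cx_mem h.1 x, ?_⟩
  have hE : ∀ j a b, E ε (toI (cx c0 x)) j a b ↔ E ε (toI c0) j a b := by
    intro j a b
    cases j with
    | zero => exact Iff.rfl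
    | succ j =>
      refine forall_congr' fun h => Rl_congr ?_ _ a b
      intro n R v x' y'
      unfold toI cx
      rw [if_pos ⟨x', y', v, rfl⟩]
  have h2 := h.2
  unfold Nest at h2 ⊢
  simp only [hE]
  exact h2

theorem perf_of_ternary' {n : ℕ} (hn : 2 < n) (R : L.Relations n) {c0 : Code L}
    (hc0 : c0 ∈ KE ε Φ) : PerfK (KE ε Φ) := by
  refine ⟨cx c0, cx_cont c0, cx_KE hc0, ?_⟩
  have key : ∀ x x' : ℕ → Bool, Iso (cx c0 x) (cx c0 x') → ∀ u, x u = true → x' u = true := by
    rintro x x' ⟨g, hg⟩ u hu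
    have h1 : In3 (cx c0 x) R (2 * u + 2) := by
      rw [In3_cx c0 x hn R]
      exact ⟨u, by rw [hu]; rfl⟩
    have h2 := In3_iso g hg R _ h1
    rw [In3_cx c0 x' hn R] at h2
    obtain ⟨u', hu'⟩ := h2
    cases hx : x' u'
    · rw [hx] at hu'
      simp only [Bool.toNat_false] at hu'
      omega
    · rw [hx] at hu'
      simp only [Bool.toNat_true] at hu'
      have : u = u' := by omega
      rw [this]; exact hx
  have isymm : ∀ c c' : Code L, Iso c c' → Iso c' c := by
    rintro c c' ⟨g, hg⟩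
    refine ⟨g.symm, fun n R t => ?_⟩
    rw [hg]
    simp
  intro x x' h
  funext u
  rw [Bool.eq_iff_iff]
  exact ⟨key x x' h u, key x' x (isymm _ _ h) u⟩

/-- The dichotomy. -/
theorem main [∀ n, Countable (L.Relations n)] (ε : Fin k → F2 L) (Φ : F2 L)
    (hε : ∀ j, subs (ε j) ⊆ subs Φ) :
    (∃ g : ℕ → Code L, ∀ c ∈ KE ε Φ, ∃ n, Iso c (g n)) ∨ PerfK (KE ε Φ) := by
  by_cases h2 : ∀ n, 2 < n → IsEmpty (L.Relations n)
  · exact binary_main ε Φ hε h2
  · push Not at h2
    obtain ⟨n, hn, ⟨R⟩⟩ := h2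
    by_cases hne : ∃ c : Code L, c ∈ KE ε Φ
    · obtain ⟨c0, hc0⟩ := hne
      exact Or.inr (perf_of_ternary' hn R hc0)
    · left
      exact ⟨fun _ _ => false, fun c hc => absurd ⟨c, hc⟩ hne⟩

end Pool.Agent.Run7.h271.NE
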