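import Pool.Agent.Run7.h271.NE.Def

set_option autoImplicit false

/-!
Coding infinite bipartite graphs by copies of two classes.
-/

namespace Pool.Agent.Run7.h271.NE

open FirstOrder Set Topology MeasureTheory Pool.Agent.H565R2.FO2
open Pool.Agent.H565R2.LO2 (PerfK perfK_of_inv)

variable {L : FirstOrder.Language.{0, 0}} {k : ℕ} {ε : Fin k → F2 L} {Φ : F2 L}

theorem El_not (hε : ∀ j, subs (ε j) ⊆ subs Φ) {d : Dat L} (hd : d ∈ AlE ε Φ) (j : ℕ) :
    El ε (d.map not) j ↔ El ε d j := by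
  obtain ⟨I, hI, x, y, rfl⟩ := hd
  rw [dat_map, El_dat _ _ _ hε, El_dat _ _ _ hε]
  exact ⟨fun h => hI.2.symm h, fun h => hI.2.symm h⟩

/-- The coding configuration. -/
structure CfE (ε : Fin k → F2 L) (Φ : F2 L) where
  hε : ∀ j, subs (ε j) ⊆ subs Φ
  I : Interp L ℕ
  hI : I ∈ MdE ε Φ
  x : ℕ
  y : ℕ
  m : ℕ
  h1 : E ε I (m + 1) x y
  h0 : ¬ E ε I m x y
  i : Bool → ℕ
  him : ∀ β, i β ≤ m
  s : Bool → ℕ → ℕ → Dat L
  hs : ∀ β u v, E ε I (i β) (pick x y β) u → E ε I (i β) (pick x y β) v → s β u v ∈ AlE ε Φ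
  hsl : ∀ β u v, E ε I (i β) (pick x y β) u → E ε I (i β) (pick x y β) v →
    ∀ j, El ε (s β u v) j ↔ i β < j
  hs0 : ∀ β u v, E ε I (i β) (pick x y β) u → E ε I (i β) (pick x y β) v →
    (s β u v).map (fun _ => false) = dat I (subs Φ) u u
  hs1 : ∀ β u v, E ε I (i β) (pick x y β) u → E ε I (i β) (pick x y β) v →
    (s β u v).map (fun _ => true) = dat I (subs Φ) v v
  d : Bool → Dat L
  hd : ∀ β, d β ∈ AlE ε Φ
  hdl : ∀ β j, El ε (d β) j ↔ m < j
  hd0 : ∀ β, (d β).map (fun _ => false) = dat I (subs Φ) x x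
  hd1 : ∀ β, (d β).map (fun _ => true) = dat I (subs Φ) y y
  n : ℕ
  R : L.Relations n
  v : Fin n → Bool
  hv0 : ¬ (d false).a n R v
  hv1 : (d true).a n R v

namespace CfE

variable (C : CfE ε Φ)

/-- the two blocks -/
def Bl (β : Bool) (z : ℕ) : Prop := E ε C.I (C.i β) (pick C.x C.y β) z

theorem nest : Nest ε C.I := C.hI.2

theorem Bl_x : C.Bl false C.x := C.nest.rfl' _ _

theorem Bl_y : C.Bl true C.y := C.nest.rfl' _ _

theorem Bl_disj {z : ℕ} (h : C.Bl false z) (h' : C.Bl true z) : False := by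
  apply C.h0
  have a1 : E ε C.I C.m C.x z := C.nest.mono (C.him false) h
  have a2 : E ε C.I C.m C.y z := C.nest.mono (C.him true) h'
  exact C.nest.trans a1 (C.nest.symm a2)

theorem Bl_uniq {β β' : Bool} {z : ℕ} (h : C.Bl β z) (h' : C.Bl β' z) : β = β' := by
  cases β <;> cases β'
  · rfl
  · exact (C.Bl_disj h h').elim
  · exact (C.Bl_disj h' h).elim
  · rfl

theorem xy : C.x ≠ C.y := by
  intro h
  apply C.Bl_disj C.Bl_x
  rw [h]; exact C.Bl_y

theorem Bl_of_E {β : Bool} {z z' : ℕ} {j : ℕ} (hj : j ≤ C.i β) (h : C.Bl β z)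
    (h' : E ε C.I j z z') : C.Bl β z' := C.nest.trans h (C.nest.mono hj h')

/-- the universe of the coded model -/
abbrev U : Type := {p : ℕ × ℕ // p.2 = 0 ∨ ∃ β, C.Bl β p.1}

instance : Infinite C.U :=
  Infinite.of_injective (fun z : ℕ => (⟨(z, 0), Or.inl rfl⟩ : C.U)) (fun a b h => by
    simp only [Subtype.mk.injEq, Prod.mk.injEq, and_true] at h
    exact h)

/-- enumeration of the universe -/
noncomputable def en : ℕ ≃ C.U :=
  (Classical.choice (nonempty_denumerable C.U)).eqv.symm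

noncomputable def pr (u : ℕ) : ℕ := (C.en u).1.1

noncomputable def ix (u : ℕ) : ℕ := (C.en u).1.2

theorem ix_cases (u : ℕ) : C.ix u = 0 ∨ ∃ β, C.Bl β (C.pr u) := (C.en u).2

theorem ext_pi {u w : ℕ} (h : C.pr u = C.pr w) (h' : C.ix u = C.ix w) : u = w := by
  apply C.en.injective
  apply Subtype.ext
  exact Prod.ext h h'

theorem at_ex (z a : ℕ) (h : a = 0 ∨ ∃ β, C.Bl β z) : ∃ u, C.pr u = z ∧ C.ix u = a := by
  refine ⟨C.en.symm ⟨(z, a), h⟩, ?_, ?_⟩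
  · unfold pr; rw [Equiv.apply_symm_apply]
  · unfold ix; rw [Equiv.apply_symm_apply]

/-- same block -/
def sb (u w : ℕ) : Prop := ∃ β, C.Bl β (C.pr u) ∧ C.Bl β (C.pr w)

theorem sb_symm {u w : ℕ} (h : C.sb u w) : C.sb w u := by
  obtain ⟨β, h1, h2⟩ := h
  exact ⟨β, h2, h1⟩

open Classical in
/-- name of the block -/
noncomputable def bk (z : ℕ) : Bool := if C.Bl false z then false else true

theorem bk_eq {β : Bool} {z : ℕ} (h : C.Bl β z) : C.bk z = β := by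
  unfold bk
  split_ifs with h1
  · exact C.Bl_uniq h1 h
  · cases β
    · exact absurd h h1
    · rfl

open Classical in
/-- the data of the coded model -/
noncomputable def dl (γ : ℕ → ℕ → Bool) (u w : ℕ) : Dat L :=
  if C.sb u w ∧ C.ix u < C.ix w then C.s (C.bk (C.pr u)) (C.pr u) (C.pr w)
  else if C.sb u w ∧ C.ix w < C.ix u then (C.s (C.bk (C.pr u)) (C.pr w) (C.pr u)).map not
  else if C.pr u = C.x ∧ C.pr w = C.y ∧ 0 < C.ix u ∧ 0 < C.ix w then
    C.d (γ (C.ix u) (C.ix w))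
  else if C.pr u = C.y ∧ C.pr w = C.x ∧ 0 < C.ix u ∧ 0 < C.ix w then
    (C.d (γ (C.ix w) (C.ix u))).map not
  else dat C.I (subs Φ) (C.pr u) (C.pr w)

theorem dl_al (γ : ℕ → ℕ → Bool) (u w : ℕ) : C.dl γ u w ∈ Al Φ := by
  unfold dl
  split_ifs with h1 h2 h3 h4
  · obtain ⟨⟨β, a1, a2⟩, -⟩ := h1
    rw [C.bk_eq a1]
    exact alE_al (C.hs β _ _ a1 a2)
  · obtain ⟨⟨β, a1, a2⟩, -⟩ := h2
    rw [C.bk_eq a1]
    exact al_not (alE_al (C.hs β _ _ a2 a1))
  · exact alE_al (C.hd _)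
  · exact al_not (alE_al (C.hd _))
  · exact al_dat C.hI.1 _ _

theorem dl_0 (γ : ℕ → ℕ → Bool) (u w : ℕ) :
    (C.dl γ u w).map (fun _ => false) = dat C.I (subs Φ) (C.pr u) (C.pr u) := by
  unfold dl
  split_ifs with h1 h2 h3 h4
  · obtain ⟨⟨β, a1, a2⟩, -⟩ := h1
    rw [C.bk_eq a1]
    exact C.hs0 β _ _ a1 a2
  · obtain ⟨⟨β, a1, a2⟩, -⟩ := h2
    rw [C.bk_eq a1, Cfg.map_const_not, Bool.not_false]
    exact C.hs1 β _ _ a2 a1
  · rw [C.hd0, h3.1]
  · rw [Cfg.map_const_not, Bool.not_false, C.hd1, h4.1]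
  · rw [dat_map]; rfl

theorem dl_self (γ : ℕ → ℕ → Bool) (u : ℕ) :
    C.dl γ u u = dat C.I (subs Φ) (C.pr u) (C.pr u) := by
  unfold dl
  rw [if_neg (fun h => lt_irrefl _ h.2), if_neg (fun h => lt_irrefl _ h.2),
    if_neg (fun h => C.xy (h.1.symm.trans h.2.1)), if_neg (fun h => C.xy (h.2.1.symm.trans h.1))]

theorem dl_not (γ : ℕ → ℕ → Bool) (u w : ℕ) : C.dl γ w u = (C.dl γ u w).map not := by
  by_cases h1 : C.sb u w ∧ C.ix u < C.ix w
  · have h1' : ¬ (C.sb w u ∧ C.ix w < C.ix u) := fun h => lt_asymm h1.2 h.2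
    have h1'' : C.sb w u ∧ C.ix u < C.ix w := ⟨C.sb_symm h1.1, h1.2⟩
    obtain ⟨⟨β, a1, a2⟩, -⟩ := id h1
    simp only [dl, if_pos h1, if_neg h1', if_pos h1'', C.bk_eq a1, C.bk_eq a2]
  · by_cases h2 : C.sb u w ∧ C.ix w < C.ix u
    · have h2' : C.sb w u ∧ C.ix w < C.ix u := ⟨C.sb_symm h2.1, h2.2⟩
      obtain ⟨⟨β, a1, a2⟩, -⟩ := id h2
      simp only [dl, if_neg h1, if_pos h2, if_pos h2', C.bk_eq a1, C.bk_eq a2, map_not_not]
    · have h1' : ¬ (C.sb w u ∧ C.ix w < C.ix u) := fun h => h2 ⟨C.sb_symm h.1, h.2⟩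
      have h2' : ¬ (C.sb w u ∧ C.ix u < C.ix w) := fun h => h1 ⟨C.sb_symm h.1, h.2⟩
      by_cases h3 : C.pr u = C.x ∧ C.pr w = C.y ∧ 0 < C.ix u ∧ 0 < C.ix w
      · have h3' : ¬ (C.pr w = C.x ∧ C.pr u = C.y ∧ 0 < C.ix w ∧ 0 < C.ix u) :=
          fun h => C.xy (h.1.symm.trans h3.2.1)
        have h3'' : C.pr w = C.y ∧ C.pr u = C.x ∧ 0 < C.ix w ∧ 0 < C.ix u :=
          ⟨h3.2.1, h3.1, h3.2.2.2, h3.2.2.1⟩
        simp only [dl, if_neg h1, if_neg h2, if_neg h1', if_neg h2', if_pos h3, if_neg h3',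
          if_pos h3'']
      · by_cases h4 : C.pr u = C.y ∧ C.pr w = C.x ∧ 0 < C.ix u ∧ 0 < C.ix w
        · have h4' : C.pr w = C.x ∧ C.pr u = C.y ∧ 0 < C.ix w ∧ 0 < C.ix u :=
            ⟨h4.2.1, h4.1, h4.2.2.2, h4.2.2.1⟩
          simp only [dl, if_neg h1, if_neg h2, if_neg h1', if_neg h2', if_neg h3, if_pos h4,
            if_pos h4', map_not_not]
        · have h3' : ¬ (C.pr w = C.x ∧ C.pr u = C.y ∧ 0 < C.ix w ∧ 0 < C.ix u) :=
            fun h => h4 ⟨h.2.1, h.1, h.2.2.2, h.2.2.1⟩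
          have h4' : ¬ (C.pr w = C.y ∧ C.pr u = C.x ∧ 0 < C.ix w ∧ 0 < C.ix u) :=
            fun h => h3 ⟨h.2.1, h.1, h.2.2.2, h.2.2.1⟩
          simp only [dl, if_neg h1, if_neg h2, if_neg h1', if_neg h2', if_neg h3, if_neg h3',
            if_neg h4, if_neg h4']
          rw [dat_map]; rfl

theorem dl_lev (γ : ℕ → ℕ → Bool) (u w j : ℕ) : El ε (C.dl γ u w) j ↔
    (E ε C.I j (C.pr u) (C.pr w) ∧ ∀ β, C.Bl β (C.pr u) → j ≤ C.i β → C.ix u = C.ix w) := by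
  unfold dl
  split_ifs with h1 h2 h3 h4
  · obtain ⟨⟨β, a1, a2⟩, a3⟩ := h1
    rw [C.bk_eq a1, C.hsl β _ _ a1 a2]
    constructor
    · intro h
      refine ⟨C.nest.mono h.le (C.nest.trans (C.nest.symm a1) a2), fun β' b1 b2 => ?_⟩
      rw [C.Bl_uniq b1 a1] at b2
      omega
    · rintro ⟨-, h⟩
      by_contra hc
      have := h β a1 (by omega)
      omega
  · obtain ⟨⟨β, a1, a2⟩, a3⟩ := h2
    rw [C.bk_eq a1, El_not C.hε (C.hs β _ _ a2 a1), C.hsl β _ _ a2 a1]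
    constructor
    · intro h
      refine ⟨C.nest.mono h.le (C.nest.trans (C.nest.symm a1) a2), fun β' b1 b2 => ?_⟩
      rw [C.Bl_uniq b1 a1] at b2
      omega
    · rintro ⟨-, h⟩
      by_contra hc
      have := h β a1 (by omega)
      omega
  · rw [C.hdl, h3.1, h3.2.1]
    constructor
    · intro h
      refine ⟨C.nest.mono h C.h1, fun β b1 b2 => ?_⟩
      have := C.him β
      omega
    · rintro ⟨h, -⟩
      by_contra hc
      exact C.h0 (C.nest.mono (by omega) h)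
  · rw [El_not C.hε (C.hd _), C.hdl, h4.1, h4.2.1]
    constructor
    · intro h
      refine ⟨C.nest.symm (C.nest.mono h C.h1), fun β b1 b2 => ?_⟩
      have := C.him β
      omega
    · rintro ⟨h, -⟩
      by_contra hc
      exact C.h0 (C.nest.mono (by omega) (C.nest.symm h))
  · rw [El_dat _ _ _ C.hε]
    refine ⟨fun h => ⟨h, fun β b1 b2 => ?_⟩, fun h => h.1⟩
    have b3 : C.Bl β (C.pr w) := C.Bl_of_E b2 b1 h
    have b4 : C.sb u w := ⟨β, b1, b3⟩
    have b5 : ¬ C.ix u < C.ix w := fun h => h1 ⟨b4, h⟩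
    have b6 : ¬ C.ix w < C.ix u := fun h => h2 ⟨b4, h⟩
    omega

theorem dl_coh (γ : ℕ → ℕ → Bool) : Coh (C.dl γ) := by
  refine ⟨?_, ?_⟩
  · intro u w σ
    rcases bool_fun_cases σ with h2 | h2 | h2 | h2
    · subst h2
      simp only [pick_false]
      rw [C.dl_0, C.dl_self]
    · subst h2
      simp only [pick_true]
      have : (C.dl γ u w).map (fun _ => true) = (C.dl γ w u).map (fun _ => false) := by
        rw [C.dl_not γ u w, Cfg.map_const_not, Bool.not_false]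
      rw [this, C.dl_0, C.dl_self]
    · subst h2
      simp only [id, pick_false, pick_true]
      exact (Dat.map_id _).symm
    · subst h2
      simp only [Bool.not_false, Bool.not_true, pick_false, pick_true]
      exact C.dl_not γ u w
  · intro u w
    have h := C.dl_lev γ u w 0
    change (C.dl γ u w).e ↔ (C.pr u = C.pr w ∧ _) at h
    rw [h]
    constructor
    · rintro ⟨h1, h2⟩
      apply C.ext_pi h1
      rcases C.ix_cases u with h3 | ⟨β, h3⟩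
      · rcases C.ix_cases w with h4 | ⟨β, h4⟩
        · rw [h3, h4]
        · rw [← h1] at h4
          exact h2 β h4 (Nat.zero_le _)
      · exact h2 β h3 (Nat.zero_le _)
    · rintro rfl
      exact ⟨rfl, fun _ _ _ => rfl⟩

/-- the coded model -/
noncomputable def Mo (γ : ℕ → ℕ → Bool) : Interp L ℕ := mkI (C.dl γ)

theorem wit (γ : ℕ → ℕ → Bool) (u z : ℕ) : ∃ w, C.dl γ u w = dat C.I (subs Φ) (C.pr u) z ∧
    C.dl γ w u = dat C.I (subs Φ) z (C.pr u) := by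
  by_cases h : ∃ β, C.Bl β (C.pr u) ∧ C.Bl β z
  · obtain ⟨β, a1, a2⟩ := h
    obtain ⟨w, hw1, hw2⟩ := C.at_ex z (C.ix u) (Or.inr ⟨β, a2⟩)
    have key : C.dl γ u w = dat C.I (subs Φ) (C.pr u) z := by
      unfold dl
      rw [if_neg (fun h => by omega), if_neg (fun h => by omega), if_neg, if_neg, hw1]
      · rintro ⟨b1, b2, -⟩
        rw [b1] at a1
        rw [← hw1, b2] at a2
        have c1 := C.Bl_uniq a1 C.Bl_y
        have c2 := C.Bl_uniq a2 C.Bl_x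
        rw [c1] at c2
        exact Bool.noConfusion c2
      · rintro ⟨b1, b2, -⟩
        rw [b1] at a1
        rw [← hw1, b2] at a2
        have c1 := C.Bl_uniq a1 C.Bl_x
        have c2 := C.Bl_uniq a2 C.Bl_y
        rw [c1] at c2
        exact Bool.noConfusion c2
    refine ⟨w, key, ?_⟩
    rw [C.dl_not γ u w, key, dat_map]
    rfl
  · obtain ⟨w, hw1, hw2⟩ := C.at_ex z 0 (Or.inl rfl)
    have hsb : ¬ C.sb u w := by
      rintro ⟨β, a1, a2⟩
      rw [hw1] at a2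
      exact h ⟨β, a1, a2⟩
    have key : C.dl γ u w = dat C.I (subs Φ) (C.pr u) z := by
      unfold dl
      rw [if_neg (fun h => hsb h.1), if_neg (fun h => hsb h.1), if_neg (fun h => by omega),
        if_neg (fun h => by omega), hw1]
    refine ⟨w, key, ?_⟩
    rw [C.dl_not γ u w, key, dat_map]
    rfl

theorem Mo_crit (γ : ℕ → ℕ → Bool) :
    lab (C.Mo γ) (subs Φ) = (fun u => (C.dl γ u u).l false) ∧ ∀ u w, Rl (C.Mo γ) Φ u w := by
  have hlb : ∀ u, (C.dl γ u u).l false = lab C.I (subs Φ) (C.pr u) := by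
    intro u
    rw [C.dl_self]; rfl
  have hc := criterion Φ (C.Mo γ) (fun u => (C.dl γ u u).l false) ?_ ?_
  · exact hc
  · intro u w
    rw [Mo, mkd_mkI (C.dl_coh γ)]
    exact C.dl_al γ u w
  · intro u c ψ h
    rw [Mo]
    simp only [mkd_mkI (C.dl_coh γ)]
    rw [hlb] at h
    obtain ⟨hψ, h⟩ := h
    have hs : subs ψ ⊆ subs Φ := subs_trans hψ
    cases c
    · obtain ⟨z, hz⟩ := h
      obtain ⟨w, -, hw⟩ := C.wit γ u z
      refine ⟨w, ?_⟩
      simp only [cond_false]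
      rw [hw, ev_dat _ _ _ hs]
      exact hz
    · obtain ⟨z, hz⟩ := h
      obtain ⟨w, hw, -⟩ := C.wit γ u z
      refine ⟨w, ?_⟩
      simp only [cond_true]
      rw [hw, ev_dat _ _ _ hs]
      exact hz

theorem Mo_dat (γ : ℕ → ℕ → Bool) (u w : ℕ) : dat (C.Mo γ) (subs Φ) u w = C.dl γ u w := by
  unfold dat
  rw [(C.Mo_crit γ).1]
  exact mkd_mkI (C.dl_coh γ) u w

theorem Mo_E (γ : ℕ → ℕ → Bool) (j u w : ℕ) : E ε (C.Mo γ) j u w ↔
    (E ε C.I j (C.pr u) (C.pr w) ∧ ∀ β, C.Bl β (C.pr u) → j ≤ C.i β → C.ix u = C.ix w) := by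
  rw [← C.dl_lev γ, ← C.Mo_dat γ, El_dat _ _ _ C.hε]

theorem Mo_nest (γ : ℕ → ℕ → Bool) : Nest ε (C.Mo γ) := by
  intro j
  simp only [C.Mo_E]
  refine ⟨fun u => ⟨C.nest.rfl' _ _, fun _ _ _ => trivial⟩, ?_, ?_, ?_⟩
  · rintro u w ⟨h1, h2⟩
    refine ⟨C.nest.symm h1, fun β b1 b2 => ?_⟩
    exact (h2 β (C.Bl_of_E b2 b1 (C.nest.symm h1)) b2).symm
  · rintro u w z ⟨h1, h2⟩ ⟨h3, h4⟩
    refine ⟨C.nest.trans h1 h3, fun β b1 b2 => ?_⟩
    exact (h2 β b1 b2).trans (h4 β (C.Bl_of_E b2 b1 h1) b2)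
  · rintro u w ⟨h1, h2⟩
    exact ⟨C.nest.mono (Nat.le_succ j) h1, fun β b1 b2 => h2 β b1 (by omega)⟩

theorem Mo_mem (γ : ℕ → ℕ → Bool) : C.Mo γ ∈ MdE ε Φ := ⟨(C.Mo_crit γ).2, C.Mo_nest γ⟩

theorem Mo_rho (γ : ℕ → ℕ → Bool) (u w : ℕ) :
    C.Mo γ C.n C.R (fun k => pick u w (C.v k)) ↔ (C.dl γ u w).a C.n C.R C.v :=
  mkI_iff (C.dl_coh γ) C.R u w C.v

theorem dl_12 (γ : ℕ → ℕ → Bool) {u w : ℕ} (hu : C.pr u = C.x) (hw : C.pr w = C.y)
    (hu' : 0 < C.ix u) (hw' : 0 < C.ix w) : C.dl γ u w = C.d (γ (C.ix u) (C.ix w)) := by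
  have hsb : ¬ C.sb u w := by
    rintro ⟨β, a1, a2⟩
    rw [hu] at a1
    rw [hw] at a2
    have c1 := C.Bl_uniq a1 C.Bl_x
    have c2 := C.Bl_uniq a2 C.Bl_y
    rw [c1] at c2
    exact Bool.noConfusion c2
  unfold dl
  rw [if_neg (fun h => hsb h.1), if_neg (fun h => hsb h.1), if_pos ⟨hu, hw, hu', hw'⟩]

/-- the coded graph -/
def gm (x : ℕ → Bool) (a b : ℕ) : Bool :=
  if a = 1 then false else if a = 2 then true
  else if b = 1 then false else if b = 2 then true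
  else x (a - 3) && decide (b - 3 ≤ a - 3)

theorem dl_row (γ : ℕ → ℕ → Bool) {p q w : ℕ} (hp : C.pr p = C.x) (hq : C.pr q = C.x)
    (hp' : C.ix p = 1) (hq' : C.ix q = 2) (hw : ¬ (C.pr w = C.y ∧ 0 < C.ix w))
    (h0 : ¬ E ε (C.Mo γ) C.m p w) (h1 : ¬ E ε (C.Mo γ) C.m q w) :
    C.dl γ p w = C.dl γ q w := by
  by_cases hb : C.Bl false (C.pr w)
  · have e1 : C.ix w ≠ 1 := by
      intro h
      apply h0
      rw [C.Mo_E]
      refine ⟨?_, fun _ _ _ => by rw [hp', h]⟩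
      rw [hp]; exact C.nest.mono (C.him false) hb
    have e2 : C.ix w ≠ 2 := by
      intro h
      apply h1
      rw [C.Mo_E]
      refine ⟨?_, fun _ _ _ => by rw [hq', h]⟩
      rw [hq]; exact C.nest.mono (C.him false) hb
    have s1 : C.sb p w := ⟨false, by rw [hp]; exact C.Bl_x, hb⟩
    have s2 : C.sb q w := ⟨false, by rw [hq]; exact C.Bl_x, hb⟩
    rcases Nat.lt_or_ge (C.ix w) 1 with h | h
    · unfold dl
      rw [if_neg (fun h => by omega), if_pos ⟨s1, by omega⟩, if_neg (fun h => by omega),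
        if_pos ⟨s2, by omega⟩, hp, hq]
    · unfold dl
      rw [if_pos ⟨s1, by omega⟩, if_pos ⟨s2, by omega⟩, hp, hq]
  · have key : ∀ r, C.pr r = C.x → C.dl γ r w = dat C.I (subs Φ) C.x (C.pr w) := by
      intro r hr
      have hsb : ¬ C.sb r w := by
        rintro ⟨β, a1, a2⟩
        rw [hr] at a1
        rw [C.Bl_uniq a1 C.Bl_x] at a2
        exact hb a2
      unfold dl
      rw [if_neg (fun h => hsb h.1), if_neg (fun h => hsb h.1),
        if_neg (fun h => hw ⟨h.2.1, h.2.2.2⟩), if_neg (fun h => C.xy (hr.symm.trans h.1)), hr]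
    rw [key p hp, key q hq]

theorem dl_col (γ : ℕ → ℕ → Bool) {p q w : ℕ} (hp : C.pr p = C.y) (hq : C.pr q = C.y)
    (hp' : C.ix p = 1) (hq' : C.ix q = 2) (hw : ¬ (C.pr w = C.x ∧ 0 < C.ix w))
    (h0 : ¬ E ε (C.Mo γ) C.m w p) (h1 : ¬ E ε (C.Mo γ) C.m w q) :
    C.dl γ w p = C.dl γ w q := by
  by_cases hb : C.Bl true (C.pr w)
  · have e1 : C.ix w ≠ 1 := by
      intro h
      apply h0
      rw [C.Mo_E]
      refine ⟨?_, fun _ _ _ => by rw [hp', h]⟩
      rw [hp]; exact C.nest.symm (C.nest.mono (C.him true) hb)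
    have e2 : C.ix w ≠ 2 := by
      intro h
      apply h1
      rw [C.Mo_E]
      refine ⟨?_, fun _ _ _ => by rw [hq', h]⟩
      rw [hq]; exact C.nest.symm (C.nest.mono (C.him true) hb)
    have s1 : C.sb w p := ⟨true, hb, by rw [hp]; exact C.Bl_y⟩
    have s2 : C.sb w q := ⟨true, hb, by rw [hq]; exact C.Bl_y⟩
    rcases Nat.lt_or_ge (C.ix w) 1 with h | h
    · unfold dl
      rw [if_pos ⟨s1, by omega⟩, if_pos ⟨s2, by omega⟩, hp, hq]
    · unfold dl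
      rw [if_neg (fun h => by omega), if_pos ⟨s1, by omega⟩, if_neg (fun h => by omega),
        if_pos ⟨s2, by omega⟩, hp, hq]
  · have key : ∀ r, C.pr r = C.y → C.dl γ w r = dat C.I (subs Φ) (C.pr w) C.y := by
      intro r hr
      have hsb : ¬ C.sb w r := by
        rintro ⟨β, a1, a2⟩
        rw [hr] at a2
        rw [C.Bl_uniq a2 C.Bl_y] at a1
        exact hb a1
      unfold dl
      rw [if_neg (fun h => hsb h.1), if_neg (fun h => hsb h.1),
        if_neg (fun h => hw ⟨h.1, h.2.2.1⟩), if_neg (fun h => C.xy (h.2.1.symm.trans hr)), hr]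
    rw [key p hp, key q hq]

end CfE

/-- the formula used for decoding -/
def Th (ε : Fin k → F2 L) (m : ℕ) (I : Interp L ℕ) {n : ℕ} (R : L.Relations n)
    (v : Fin n → Bool) (p : Fin 4 → ℕ) (y w : ℕ) : Prop :=
  (¬ E ε I m (p 0) w ∧ ¬ E ε I m (p 1) w ∧ ¬ I n R (fun k => pick (p 0) w (v k)) ∧
      I n R (fun k => pick (p 1) w (v k))) ∧
    (¬ E ε I m y (p 2) ∧ ¬ E ε I m y (p 3) ∧ ¬ I n R (fun k => pick y (p 2) (v k)) ∧
      I n R (fun k => pick y (p 3) (v k))) ∧ I n R (fun k => pick y w (v k))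

namespace CfE

variable (C : CfE ε Φ)

theorem par_ex : ∃ p : Fin 4 → ℕ, (C.pr (p 0) = C.x ∧ C.ix (p 0) = 1) ∧
    (C.pr (p 1) = C.x ∧ C.ix (p 1) = 2) ∧ (C.pr (p 2) = C.y ∧ C.ix (p 2) = 1) ∧
    (C.pr (p 3) = C.y ∧ C.ix (p 3) = 2) := by
  obtain ⟨p0, h0⟩ := C.at_ex C.x 1 (Or.inr ⟨false, C.Bl_x⟩)
  obtain ⟨p1, h1⟩ := C.at_ex C.x 2 (Or.inr ⟨false, C.Bl_x⟩)
  obtain ⟨p2, h2⟩ := C.at_ex C.y 1 (Or.inr ⟨true, C.Bl_y⟩)
  obtain ⟨p3, h3⟩ := C.at_ex C.y 2 (Or.inr ⟨true, C.Bl_y⟩)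
  exact ⟨![p0, p1, p2, p3], h0, h1, h2, h3⟩

theorem notE (γ : ℕ → ℕ → Bool) {u w : ℕ} (hu : C.pr u = C.x) (hw : C.pr w = C.y) :
    ¬ E ε (C.Mo γ) C.m u w := by
  intro h
  have := ((C.Mo_E γ _ _ _).1 h).1
  rw [hu, hw] at this
  exact C.h0 this

theorem Th_iff {p : Fin 4 → ℕ} (h0 : C.pr (p 0) = C.x ∧ C.ix (p 0) = 1)
    (h1 : C.pr (p 1) = C.x ∧ C.ix (p 1) = 2) (h2 : C.pr (p 2) = C.y ∧ C.ix (p 2) = 1)
    (h3 : C.pr (p 3) = C.y ∧ C.ix (p 3) = 2) (x : ℕ → Bool) (y w : ℕ) :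
    Th ε C.m (C.Mo (gm x)) C.R C.v p y w ↔
      ∃ k, (C.pr y = C.x ∧ C.ix y = k + 3) ∧ ∃ l, (C.pr w = C.y ∧ C.ix w = l + 2) ∧
        (l = 0 ∨ (x k = true ∧ l ≤ k + 1)) := by
  have hd : ∀ β, (C.d β).a C.n C.R C.v ↔ β = true := by
    intro β; cases β
    · simp [C.hv0]
    · simp [C.hv1]
  have hrow : (¬ E ε (C.Mo (gm x)) C.m (p 0) w ∧ ¬ E ε (C.Mo (gm x)) C.m (p 1) w ∧
      ¬ (C.dl (gm x) (p 0) w).a C.n C.R C.v ∧
      (C.dl (gm x) (p 1) w).a C.n C.R C.v) ↔ (C.pr w = C.y ∧ 0 < C.ix w) := by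
    constructor
    · rintro ⟨e0, e1, e2, e3⟩
      by_contra hw
      rw [C.dl_row _ h0.1 h1.1 h0.2 h1.2 hw e0 e1] at e2
      exact e2 e3
    · rintro ⟨hw, hw'⟩
      refine ⟨C.notE _ h0.1 hw, C.notE _ h1.1 hw, ?_, ?_⟩
      · rw [C.dl_12 _ h0.1 hw (by omega) hw', hd, h0.2]
        simp [gm]
      · rw [C.dl_12 _ h1.1 hw (by omega) hw', hd, h1.2]
        simp [gm]
  have hcol : (¬ E ε (C.Mo (gm x)) C.m y (p 2) ∧ ¬ E ε (C.Mo (gm x)) C.m y (p 3) ∧
      ¬ (C.dl (gm x) y (p 2)).a C.n C.R C.v ∧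
      (C.dl (gm x) y (p 3)).a C.n C.R C.v) ↔ ∃ k, C.pr y = C.x ∧ C.ix y = k + 3 := by
    constructor
    · rintro ⟨e0, e1, e2, e3⟩
      by_cases hy : C.pr y = C.x ∧ 0 < C.ix y
      · rw [C.dl_12 _ hy.1 h2.1 hy.2 (by omega), hd, h2.2] at e2
        rw [C.dl_12 _ hy.1 h3.1 hy.2 (by omega), hd, h3.2] at e3
        refine ⟨C.ix y - 3, hy.1, ?_⟩
        unfold gm at e2 e3
        by_cases c1 : C.ix y = 1
        · simp [c1] at e3
        · by_cases c2 : C.ix y = 2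
          · simp [c2] at e2
          · omega
      · exfalso
        rw [C.dl_col _ h2.1 h3.1 h2.2 h3.2 hy e0 e1] at e2
        exact e2 e3
    · rintro ⟨k, hk1, hk2⟩
      refine ⟨C.notE _ hk1 h2.1, C.notE _ hk1 h3.1, ?_, ?_⟩
      · rw [C.dl_12 _ hk1 h2.1 (by omega) (by omega), hd, hk2, h2.2]
        unfold gm
        rw [if_neg (by omega), if_neg (by omega), if_pos rfl]
        simp
      · rw [C.dl_12 _ hk1 h3.1 (by omega) (by omega), hd, hk2, h3.2]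
        unfold gm
        rw [if_neg (by omega), if_neg (by omega), if_neg (by omega), if_pos rfl]
  unfold Th
  simp only [C.Mo_rho]
  rw [hrow, hcol]
  constructor
  · rintro ⟨⟨hw, hw'⟩, ⟨k, hk1, hk2⟩, h⟩
    refine ⟨k, ⟨hk1, hk2⟩, ?_⟩
    rw [C.dl_12 _ hk1 hw (by omega) hw', hd, hk2] at h
    unfold gm at h
    rw [if_neg (by omega), if_neg (by omega)] at h
    split_ifs at h with c1 c2
    · exact ⟨0, ⟨hw, c2⟩, Or.inl rfl⟩
    · rw [Bool.and_eq_true, decide_eq_true_eq] at h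
      have e3 : k + 3 - 3 = k := by omega
      rw [e3] at h
      exact ⟨C.ix w - 2, ⟨hw, by omega⟩, Or.inr ⟨h.1, by omega⟩⟩
  · rintro ⟨k, ⟨hk1, hk2⟩, l, ⟨hw, hw'⟩, h⟩
    refine ⟨⟨hw, by omega⟩, ⟨k, hk1, hk2⟩, ?_⟩
    rw [C.dl_12 _ hk1 hw (by omega) (by omega), hd, hk2, hw']
    unfold gm
    rw [if_neg (by omega), if_neg (by omega), if_neg (by omega)]
    split_ifs with c1
    · rfl
    · rcases h with h | ⟨h1, h2⟩
      · exfalso; omega
      · have e3 : k + 3 - 3 = k := by omega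
        rw [e3, h1, Bool.true_and, decide_eq_true_eq]
        omega

theorem decode {p : Fin 4 → ℕ} (h0 : C.pr (p 0) = C.x ∧ C.ix (p 0) = 1)
    (h1 : C.pr (p 1) = C.x ∧ C.ix (p 1) = 2) (h2 : C.pr (p 2) = C.y ∧ C.ix (p 2) = 1)
    (h3 : C.pr (p 3) = C.y ∧ C.ix (p 3) = 2) (x : ℕ → Bool) (k : ℕ) :
    (∃ y, ∃ s : Finset ℕ, s.card = k + 2 ∧
      ∀ w, w ∈ s ↔ Th ε C.m (C.Mo (gm x)) C.R C.v p y w) ↔ x k = true := by
  have hat : ∀ l : ℕ, ∃ u, C.pr u = C.y ∧ C.ix u = l + 2 := fun l =>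
    C.at_ex C.y (l + 2) (Or.inr ⟨true, C.Bl_y⟩)
  choose q hq1 hq2 using hat
  have hinj : Function.Injective q := by
    intro l l' h
    have a1 := hq2 l
    have a2 := hq2 l'
    rw [h] at a1
    omega
  have hqw : ∀ w l, (C.pr w = C.y ∧ C.ix w = l + 2) ↔ q l = w := by
    intro w l
    constructor
    · rintro ⟨a1, a2⟩
      exact C.ext_pi ((hq1 l).trans a1.symm) ((hq2 l).trans a2.symm)
    · rintro rfl
      exact ⟨hq1 l, hq2 l⟩
  constructor
  · rintro ⟨y, s, hs, hw⟩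
    simp only [C.Th_iff h0 h1 h2 h3] at hw
    have hne : s.Nonempty := by
      rw [← Finset.card_pos]; omega
    obtain ⟨w0, hw0⟩ := hne
    obtain ⟨k', hy, -⟩ := (hw w0).1 hw0
    by_cases hx : x k' = true
    · have : s = (Finset.range (k' + 2)).image q := by
        ext w
        rw [hw, Finset.mem_image]
        constructor
        · rintro ⟨k2, hk2, l, hl, h⟩
          have : k2 = k' := by omega
          subst this
          refine ⟨l, ?_, (hqw w l).1 hl⟩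
          rw [Finset.mem_range]
          rcases h with h | h
          · omega
          · omega
        · rintro ⟨l, hl, rfl⟩
          rw [Finset.mem_range] at hl
          exact ⟨k', hy, l, ⟨hq1 l, hq2 l⟩, Or.inr ⟨hx, by omega⟩⟩
      rw [this, Finset.card_image_of_injective _ hinj, Finset.card_range] at hs
      have : k = k' := by omega
      rw [this]; exact hx
    · exfalso
      have : s ⊆ {q 0} := by
        intro w hws
        obtain ⟨k2, hk2, l, hl, h⟩ := (hw w).1 hws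
        have : k2 = k' := by omega
        subst this
        rcases h with h | h
        · subst h
          rw [Finset.mem_singleton]
          exact ((hqw w 0).1 hl).symm
        · exact absurd h.1 hx
      have := Finset.card_le_card this
      rw [Finset.card_singleton] at this
      omega
  · intro hx
    obtain ⟨y, hy1, hy2⟩ := C.at_ex C.x (k + 3) (Or.inr ⟨false, C.Bl_x⟩)
    refine ⟨y, (Finset.range (k + 2)).image q, ?_, ?_⟩
    · rw [Finset.card_image_of_injective _ hinj, Finset.card_range]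
    · intro w
      rw [C.Th_iff h0 h1 h2 h3, Finset.mem_image]
      constructor
      · rintro ⟨l, hl, rfl⟩
        rw [Finset.mem_range] at hl
        exact ⟨k, ⟨hy1, hy2⟩, l, ⟨hq1 l, hq2 l⟩, Or.inr ⟨hx, by omega⟩⟩
      · rintro ⟨k2, hk2, l, hl, h⟩
        have : k2 = k := by omega
        subst this
        refine ⟨l, ?_, (hqw w l).1 hl⟩
        rw [Finset.mem_range]
        rcases h with h | h
        · omega
        · omega

end CfE

end Pool.Agent.Run7.h271.NE
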