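import Pool.Agent.H565R2.FO2.Fin
import Pool.Agent.H565R2.LO2.Dich

set_option autoImplicit false

/-!
Two-variable logic over nested equivalence relations: levels, models, data, and the coding of
invariants by natural numbers.
-/

namespace Pool.Agent.Run7.h271.NE

open FirstOrder Set Topology MeasureTheory Pool.Agent.H565R2.FO2
open Pool.Agent.H565R2.LO2 (PerfK perfK_of_inv)

variable {L : FirstOrder.Language.{0, 0}} {k : ℕ}

/-- The levels of a pair: level `0` is equality, level `j + 1` is the relation defined by `ε j`, and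
all levels above `k` are total. -/
def E {M : Type} (ε : Fin k → F2 L) (I : Interp L M) (j : ℕ) (x y : M) : Prop :=
  match j with
  | 0 => x = y
  | j + 1 => ∀ h : j < k, Rl I (ε ⟨j, h⟩) x y

/-- The levels of a data. -/
def El (ε : Fin k → F2 L) (d : Dat L) (j : ℕ) : Prop :=
  match j with
  | 0 => d.e
  | j + 1 => ∀ h : j < k, ev (ε ⟨j, h⟩) d

theorem El_dat {M : Type} (ε : Fin k → F2 L) (I : Interp L M) (J : Set (F2 L))
    (hJ : ∀ j, subs (ε j) ⊆ J) (x y : M) (j : ℕ) : El ε (dat I J x y) j ↔ E ε I j x y := by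
  cases j with
  | zero => exact Iff.rfl
  | succ j => exact forall_congr' fun h => ev_dat I J _ (hJ _) x y

/-- The relations are nested equivalence relations. -/
def Nest {M : Type} (ε : Fin k → F2 L) (I : Interp L M) : Prop :=
  ∀ j, (∀ x, E ε I j x x) ∧ (∀ x y, E ε I j x y → E ε I j y x) ∧
    (∀ x y z, E ε I j x y → E ε I j y z → E ε I j x z) ∧ ∀ x y, E ε I j x y → E ε I (j + 1) x y

namespace Nest

variable {M : Type} {ε : Fin k → F2 L} {I : Interp L M} (h : Nest ε I)

include h

theorem rfl' (j : ℕ) (x : M) : E ε I j x x := (h j).1 x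

theorem symm {j : ℕ} {x y : M} (h1 : E ε I j x y) : E ε I j y x := (h j).2.1 x y h1

theorem trans {j : ℕ} {x y z : M} (h1 : E ε I j x y) (h2 : E ε I j y z) : E ε I j x z :=
  (h j).2.2.1 x y z h1 h2

theorem mono {j j' : ℕ} (hj : j ≤ j') {x y : M} (h1 : E ε I j x y) : E ε I j' x y := by
  induction hj with
  | refl => exact h1
  | step _ ih => exact (h _).2.2.2 x y ih

end Nest

/-- Models. -/
def MdE (ε : Fin k → F2 L) (Φ : F2 L) : Set (Interp L ℕ) := {I | I ∈ Md Φ ∧ Nest ε I}

/-- Data realised in models. -/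
def AlE (ε : Fin k → F2 L) (Φ : F2 L) : Set (Dat L) :=
  {d | ∃ I ∈ MdE ε Φ, ∃ x y, d = dat I (subs Φ) x y}

theorem alE_al {ε : Fin k → F2 L} {Φ : F2 L} {d : Dat L} (h : d ∈ AlE ε Φ) :
    d ∈ Al Φ := by
  obtain ⟨I, hI, x, y, rfl⟩ := h
  exact ⟨I, hI.1, x, y, rfl⟩

/-- Codes of models. -/
def KE (ε : Fin k → F2 L) (Φ : F2 L) : Set (Code L) := {c | toI c ∈ MdE ε Φ}

theorem meas_E (ε : Fin k → F2 L) (j x y : ℕ) :
    Measurable (fun c : Code L => E ε (toI c) j x y) := by
  cases j with
  | zero => exact measurable_const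
  | succ j =>
    unfold E
    exact Measurable.forall fun h => meas_Rl _ _ _

theorem meas_Nest (ε : Fin k → F2 L) :
    Measurable (fun c : Code L => Nest ε (toI c)) := by
  unfold Nest
  refine Measurable.forall fun j => ?_
  refine (Measurable.forall fun x => meas_E ε j x x).and (Measurable.and ?_ (Measurable.and ?_ ?_))
  · exact Measurable.forall fun x => Measurable.forall fun y =>
      (meas_E ε j x y).imp (meas_E ε j y x)
  · exact Measurable.forall fun x => Measurable.forall fun y => Measurable.forall fun z =>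
      (meas_E ε j x y).imp ((meas_E ε j y z).imp (meas_E ε j x z))
  · exact Measurable.forall fun x => Measurable.forall fun y =>
      (meas_E ε j x y).imp (meas_E ε (j + 1) x y)

theorem meas_KE [∀ n, Countable (L.Relations n)] (ε : Fin k → F2 L) (Φ : F2 L) :
    MeasurableSet (KE ε Φ) :=
  (meas_Md Φ).inter (measurableSet_setOfPred.2 (meas_Nest ε))

instance ke_sb [∀ n, Countable (L.Relations n)] (ε : Fin k → F2 L) (Φ : F2 L) :
    StandardBorelSpace (KE ε Φ) := (meas_KE ε Φ).standardBorel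

/-- `g` is an isomorphism between two codes. -/
def IsoM (g : ℕ ≃ ℕ) (c c' : Code L) : Prop :=
  ∀ n (R : L.Relations n) (t : Fin n → ℕ), c ⟨n, R, t⟩ = c' ⟨n, R, fun k => g (t k)⟩

theorem IsoM.symm {g : ℕ ≃ ℕ} {c c' : Code L} (h : IsoM g c c') : IsoM g.symm c' c := by
  intro n R t
  rw [h]
  simp

theorem E_iso {g : ℕ ≃ ℕ} {c c' : Code L} (hg : IsoM g c c') (ε : Fin k → F2 L)
    (j x y : ℕ) : E ε (toI c) j x y ↔ E ε (toI c') j (g x) (g y) := by
  cases j with
  | zero =>
    show x = y ↔ g x = g y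
    exact g.injective.eq_iff.symm
  | succ j =>
    refine forall_congr' fun h => ?_
    exact Rl_iso g hg (ε ⟨j, h⟩) x y

/-- Measurable invariants with natural values. -/
def Inv {ε : Fin k → F2 L} {Φ : F2 L} {ι : Type} (act : (ℕ ≃ ℕ) → ι → ι)
    (G : ι → KE ε Φ → ℕ) : Prop :=
  (∀ i n, Measurable (fun c => G i c = n)) ∧
    ∀ (g : ℕ ≃ ℕ) (c c' : KE ε Φ), IsoM g c.1 c'.1 → ∀ i, G i c = G (act g i) c'

theorem num [∀ n, Countable (L.Relations n)] {ε : Fin k → F2 L} {Φ : F2 L}
    (hP : ¬ PerfK (KE ε Φ)) {ι κ : Type} [Countable ι] [Countable κ] (act : (ℕ ≃ ℕ) → ι → ι)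
    (P : ι → KE ε Φ → κ → Prop) (hm : ∀ i q, Measurable (fun c => P i c q))
    (hinv : ∀ (g : ℕ ≃ ℕ) (c c' : KE ε Φ), IsoM g c.1 c'.1 →
      ∀ i q, P i c q ↔ P (act g i) c' q) :
    ∃ G : ι → KE ε Φ → ℕ, Inv act G ∧
      ∀ i i' c c', G i c = G i' c' ↔ ∀ q, (P i c q ↔ P i' c' q) := by
  classical
  let F : ι → KE ε Φ → κ → Bool := fun i c q => decide (P i c q)
  have hF : ∀ i, Measurable (F i) := by
    intro i
    rw [measurable_pi_iff]
    intro q
    apply measurable_to_bool
    have : (fun c => F i c q) ⁻¹' {true} = {c | P i c q} := by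
      ext c; simp [F]
    rw [this]
    exact measurableSet_setOfPred.2 (hm i q)
  have hFe : ∀ i i' c c', F i c = F i' c' ↔ ∀ q, (P i c q ↔ P i' c' q) := by
    intro i i' c c'
    rw [funext_iff]
    refine forall_congr' fun q => ?_
    simp [F]
  have hc : (⋃ i, Set.range (F i)).Countable := by
    by_contra hc
    apply hP
    refine perfK_of_inv (K := KE ε Φ) (Y := KE ε Φ) (Z := κ → Bool) (ι := ι) (fun y => y.1)
      measurable_subtype_coe (fun y => y.2) F hF ?_ hc
    rintro y y' ⟨g, hg⟩ i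
    exact ⟨act g i, (hFe _ _ _ _).2 (hinv g y y' hg i)⟩
  have := hc.to_subtype
  obtain ⟨e, he⟩ := exists_injective_nat (⋃ i, Set.range (F i) : Set (κ → Bool))
  let G : ι → KE ε Φ → ℕ := fun i c => e ⟨F i c, mem_iUnion.2 ⟨i, c, rfl⟩⟩
  have hG : ∀ i i' c c', G i c = G i' c' ↔ F i c = F i' c' := by
    intro i i' c c'
    show e _ = e _ ↔ _
    rw [he.eq_iff, Subtype.mk.injEq]
  refine ⟨G, ⟨?_, ?_⟩, fun i i' c c' => (hG _ _ _ _).trans (hFe _ _ _ _)⟩
  · intro i n
    apply measurableSet_setOfPred.1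
    by_cases h : ∃ c0, G i c0 = n
    · obtain ⟨c0, rfl⟩ := h
      have : {c | G i c = G i c0} = F i ⁻¹' {F i c0} := by
        ext c
        exact hG i i c c0
      rw [this]
      exact hF i (measurableSet_singleton _)
    · have : {c | G i c = n} = ∅ := by
        ext c
        constructor
        · intro hc; exact absurd ⟨c, hc⟩ h
        · intro hc; exact hc.elim
      rw [this]
      exact MeasurableSet.empty
  · intro g c c' hg i
    rw [hG, hFe]
    exact hinv g c c' hg i

end Pool.Agent.Run7.h271.NE
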