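import Pool.Agent.Run7.h271.NE.Per

set_option autoImplicit false

/-!
Invariants of models with few extensions, and their completeness.
-/

namespace Pool.Agent.Run7.h271.NE

open FirstOrder Set Topology MeasureTheory Pool.Agent.H565R2.FO2
open Pool.Agent.H565R2.LO2 (PerfK perfK_of_inv)

variable {L : FirstOrder.Language.{0, 0}} {k : ℕ} {ε : Fin k → F2 L} {Φ : F2 L}

/-- action on elements -/
def a1 (g : ℕ ≃ ℕ) (x : ℕ) : ℕ := g x

/-- action on pairs -/
def a2 (g : ℕ ≃ ℕ) (p : ℕ × ℕ) : ℕ × ℕ := (g p.1, g p.2)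

theorem KE_nest (c : KE ε Φ) : Nest ε (toI c.1) := c.2.2

theorem alE_dat (c : KE ε Φ) (x y : ℕ) : dat (toI c.1) (subs Φ) x y ∈ AlE ε Φ :=
  ⟨_, c.2, x, y, rfl⟩

theorem meas_E' (j x y : ℕ) : Measurable (fun c : KE ε Φ => E ε (toI c.1) j x y) :=
  (meas_E ε j x y).comp measurable_subtype_coe

theorem pc_ex [∀ n, Countable (L.Relations n)] (hP : ¬ PerfK (KE ε Φ)) :
    ∃ G : ℕ × ℕ → KE ε Φ → ℕ, Inv a2 G ∧ ∀ i i' c c', G i c = G i' c' ↔
      dat (toI c.1) (subs Φ) i.1 i.2 = dat (toI c'.1) (subs Φ) i'.1 i'.2 := by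
  have hm : ∀ (i : ℕ × ℕ) (q : KI Φ), Measurable (fun c : KE ε Φ =>
      code Φ (dat (toI c.1) (subs Φ) i.1 i.2) q = true) := by
    intro i q
    have h1 : Measurable (fun c : KE ε Φ => code Φ (dat (toI c.1) (subs Φ) i.1 i.2) q) :=
      (measurable_pi_apply q).comp ((meas_code Φ i.1 i.2).comp measurable_subtype_coe)
    exact measurableSet_setOfPred.1 (h1 (measurableSet_singleton true))
  have hinv : ∀ (g : ℕ ≃ ℕ) (c c' : KE ε Φ), IsoM g c.1 c'.1 → ∀ (i : ℕ × ℕ) (q : KI Φ),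
      (code Φ (dat (toI c.1) (subs Φ) i.1 i.2) q = true ↔
        code Φ (dat (toI c'.1) (subs Φ) (a2 g i).1 (a2 g i).2) q = true) := by
    intro g c c' hg i q
    rw [dat_iso g hg]
    exact Iff.rfl
  obtain ⟨G, hG, h⟩ := num hP a2 (fun i c q =>
    code Φ (dat (toI c.1) (subs Φ) i.1 i.2) q = true) hm hinv
  refine ⟨G, hG, fun i i' c c' => (h i i' c c').trans ?_⟩
  constructor
  · intro hq
    refine code_inj (Φ := Φ) (alE_al (alE_dat c _ _)) (alE_al (alE_dat c' _ _)) ?_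
    funext q
    rw [Bool.eq_iff_iff]
    exact hq q
  · intro he q
    rw [he]

section

variable [∀ n, Countable (L.Relations n)]

/-- Codes of the data of the pairs. -/
noncomputable def pc (hP : ¬ PerfK (KE ε Φ)) : ℕ × ℕ → KE ε Φ → ℕ := Classical.choose (pc_ex hP)

theorem pc_inv (hP : ¬ PerfK (KE ε Φ)) : Inv a2 (pc hP) := (Classical.choose_spec (pc_ex hP)).1

theorem pc_iff (hP : ¬ PerfK (KE ε Φ)) (x y x' y' : ℕ) (c c' : KE ε Φ) :
    pc hP (x, y) c = pc hP (x', y') c' ↔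
      dat (toI c.1) (subs Φ) x y = dat (toI c'.1) (subs Φ) x' y' :=
  (Classical.choose_spec (pc_ex hP)).2 _ _ _ _

theorem rl_ex (hP : ¬ PerfK (KE ε Φ)) :
    ∃ G : ℕ → KE ε Φ → ℕ, Inv a1 G ∧ ∀ x x' c c', G x c = G x' c' ↔
      ∀ q : ℕ × ℕ, ((∃ y, E ε (toI c.1) q.1 x y ∧ pc hP (y, y) c = q.2) ↔
        ∃ y, E ε (toI c'.1) q.1 x' y ∧ pc hP (y, y) c' = q.2) := by
  refine num hP (ι := ℕ) (κ := ℕ × ℕ) a1
    (fun x c q => ∃ y, E ε (toI c.1) q.1 x y ∧ pc hP (y, y) c = q.2) ?_ ?_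
  · intro x q
    exact Measurable.exists fun y => (meas_E' _ _ _).and ((pc_inv hP).1 _ _)
  · intro g c c' hg x q
    constructor
    · rintro ⟨y, h1, h2⟩
      refine ⟨g y, (E_iso hg ε _ _ _).1 h1, ?_⟩
      rw [← h2]
      exact ((pc_inv hP).2 g c c' hg (y, y)).symm
    · rintro ⟨y, h1, h2⟩
      refine ⟨g.symm y, (E_iso hg ε _ _ _).2 ?_, ?_⟩
      · rw [Equiv.apply_symm_apply]; exact h1
      · rw [← h2]
        have := (pc_inv hP).2 g c c' hg (g.symm y, g.symm y)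
        simp only [a2, Equiv.apply_symm_apply] at this
        exact this

/-- Refined labels. -/
noncomputable def rl (hP : ¬ PerfK (KE ε Φ)) : ℕ → KE ε Φ → ℕ := Classical.choose (rl_ex hP)

theorem rl_inv (hP : ¬ PerfK (KE ε Φ)) : Inv a1 (rl hP) := (Classical.choose_spec (rl_ex hP)).1

theorem rl_iff (hP : ¬ PerfK (KE ε Φ)) (x x' : ℕ) (c c' : KE ε Φ) :
    rl hP x c = rl hP x' c' ↔
      ∀ q : ℕ × ℕ, ((∃ y, E ε (toI c.1) q.1 x y ∧ pc hP (y, y) c = q.2) ↔
        ∃ y, E ε (toI c'.1) q.1 x' y ∧ pc hP (y, y) c' = q.2) :=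
  (Classical.choose_spec (rl_ex hP)).2 _ _ _ _

/-- Equal refined labels: the labels in the classes are the same. -/
theorem rl_get (hP : ¬ PerfK (KE ε Φ)) {x x' : ℕ} {c c' : KE ε Φ} (h : rl hP x c = rl hP x' c')
    {i y : ℕ} (hy : E ε (toI c.1) i x y) : ∃ y', E ε (toI c'.1) i x' y' ∧
      dat (toI c'.1) (subs Φ) y' y' = dat (toI c.1) (subs Φ) y y := by
  rw [rl_iff] at h
  obtain ⟨y', h1, h2⟩ := (h (i, pc hP (y, y) c)).1 ⟨y, hy, rfl⟩
  exact ⟨y', h1, (pc_iff hP _ _ _ _ _ _).1 h2⟩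

theorem rl_dat (hP : ¬ PerfK (KE ε Φ)) {x x' : ℕ} {c c' : KE ε Φ} (h : rl hP x c = rl hP x' c') :
    dat (toI c'.1) (subs Φ) x' x' = dat (toI c.1) (subs Φ) x x := by
  obtain ⟨y', h1, h2⟩ := rl_get hP h (i := 0) (y := x) rfl
  have : x' = y' := h1
  rw [← this] at h2
  exact h2

/-- The refined label `p` may be repeated at level `i + 1`. -/
def Rep (hP : ¬ PerfK (KE ε Φ)) (i p : ℕ) : Prop :=
  ∃ (c : KE ε Φ) (x x' : ℕ), ¬ E ε (toI c.1) i x x' ∧ E ε (toI c.1) (i + 1) x x' ∧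
    rl hP x c = p ∧ rl hP x' c = p

/-- `y` is a king for `x`. -/
def Kg (hP : ¬ PerfK (KE ε Φ)) (c : KE ε Φ) (x y : ℕ) : Prop :=
  ∀ i, ¬ E ε (toI c.1) i x y → ¬ Rep hP i (rl hP y c)

theorem meas_Kg (hP : ¬ PerfK (KE ε Φ)) (x y : ℕ) : Measurable (fun c => Kg hP c x y) := by
  unfold Kg
  refine Measurable.forall fun i => (meas_E' _ _ _).not.imp ?_
  have : (fun c : KE ε Φ => ¬ Rep hP i (rl hP y c)) =
      fun c => ∃ n, rl hP y c = n ∧ ¬ Rep hP i n := by
    funext c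
    apply propext
    constructor
    · intro h; exact ⟨_, rfl, h⟩
    · rintro ⟨n, rfl, h⟩; exact h
  rw [this]
  exact Measurable.exists fun n => ((rl_inv hP).1 _ _).and measurable_const

theorem Kg_iso (hP : ¬ PerfK (KE ε Φ)) {g : ℕ ≃ ℕ} {c c' : KE ε Φ} (hg : IsoM g c.1 c'.1)
    (x y : ℕ) : Kg hP c x y ↔ Kg hP c' (g x) (g y) := by
  unfold Kg
  refine forall_congr' fun i => ?_
  rw [E_iso hg ε i x y, (rl_inv hP).2 g c c' hg y]
  exact Iff.rfl

theorem pf_ex (hP : ¬ PerfK (KE ε Φ)) :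
    ∃ G : ℕ → KE ε Φ → ℕ, Inv a1 G ∧ ∀ x x' c c', G x c = G x' c' ↔
      ∀ q : ℕ × ℕ, ((∃ y, Kg hP c x y ∧ pc hP (x, y) c = q.1 ∧ rl hP y c = q.2) ↔
        ∃ y, Kg hP c' x' y ∧ pc hP (x', y) c' = q.1 ∧ rl hP y c' = q.2) := by
  refine num hP (ι := ℕ) (κ := ℕ × ℕ) a1
    (fun x c q => ∃ y, Kg hP c x y ∧ pc hP (x, y) c = q.1 ∧ rl hP y c = q.2) ?_ ?_
  · intro x q
    exact Measurable.exists fun y => (meas_Kg _ _ _).and
      (((pc_inv hP).1 _ _).and ((rl_inv hP).1 _ _))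
  · intro g c c' hg x q
    constructor
    · rintro ⟨y, h1, h2, h3⟩
      refine ⟨g y, (Kg_iso hP hg _ _).1 h1, ?_, ?_⟩
      · rw [← h2]
        exact ((pc_inv hP).2 g c c' hg (x, y)).symm
      · rw [← h3]
        exact ((rl_inv hP).2 g c c' hg y).symm
    · rintro ⟨y, h1, h2, h3⟩
      refine ⟨g.symm y, (Kg_iso hP hg _ _).2 ?_, ?_, ?_⟩
      · rw [Equiv.apply_symm_apply]; exact h1
      · rw [← h2]
        have := (pc_inv hP).2 g c c' hg (x, g.symm y)
        simp only [a2, Equiv.apply_symm_apply] at this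
        exact this
      · rw [← h3]
        have := (rl_inv hP).2 g c c' hg (g.symm y)
        simp only [a1, Equiv.apply_symm_apply] at this
        exact this

/-- Profiles. -/
noncomputable def pf (hP : ¬ PerfK (KE ε Φ)) : ℕ → KE ε Φ → ℕ := Classical.choose (pf_ex hP)

theorem pf_inv (hP : ¬ PerfK (KE ε Φ)) : Inv a1 (pf hP) := (Classical.choose_spec (pf_ex hP)).1

theorem pf_get (hP : ¬ PerfK (KE ε Φ)) {x x' : ℕ} {c c' : KE ε Φ} (h : pf hP x c = pf hP x' c')
    {y : ℕ} (hy : Kg hP c x y) : ∃ y', Kg hP c' x' y' ∧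
      dat (toI c'.1) (subs Φ) x' y' = dat (toI c.1) (subs Φ) x y ∧ rl hP y' c' = rl hP y c := by
  obtain ⟨y', h1, h2, h3⟩ :=
    (((Classical.choose_spec (pf_ex hP)).2 _ _ _ _).1 h (pc hP (x, y) c, rl hP y c)).1
      ⟨y, hy, rfl, rfl⟩
  exact ⟨y', h1, (pc_iff hP _ _ _ _ _ _).1 h2, h3⟩

theorem pf_rl (hP : ¬ PerfK (KE ε Φ)) {x x' : ℕ} {c c' : KE ε Φ} (h : pf hP x c = pf hP x' c') :
    rl hP x' c' = rl hP x c := by
  have hK : Kg hP c x x := fun i hi => absurd ((KE_nest c).rfl' i x) hi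
  obtain ⟨y', -, h1, h2⟩ := pf_get hP h hK
  have h3 : (dat (toI c'.1) (subs Φ) x' y').e := by
    rw [h1]; exact rfl
  have h4 : x' = y' := h3
  rw [h4]; exact h2

/-- Complete invariants of the classes of level `j`. -/
def Cmp (f0 : ℕ → KE ε Φ → ℕ) (j : ℕ) (G : ℕ → KE ε Φ → ℕ) : Prop :=
  (∀ c x y, E ε (toI c.1) j x y → G x c = G y c) ∧
  ∀ (c c' : KE ε Φ) (x x' : ℕ), G x c = G x' c' → ∃ f : ℕ → ℕ,
    BijOn f {y | E ε (toI c.1) j x y} {y | E ε (toI c'.1) j x' y} ∧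
    (∀ y, E ε (toI c.1) j x y → f0 (f y) c' = f0 y c) ∧
    ∀ i y z, E ε (toI c.1) j x y → E ε (toI c.1) j x z →
      (E ε (toI c'.1) i (f y) (f z) ↔ E ε (toI c.1) i y z)

/-- The least element of the class. -/
noncomputable def lst (ε : Fin k → F2 L) (c : Code L) (j y : ℕ) : ℕ :=
  sInf {z | E ε (toI c) j y z}

omit [∀ n, Countable (L.Relations n)] in
theorem lst_E (c : KE ε Φ) (j y : ℕ) : E ε (toI c.1) j y (lst ε c.1 j y) :=
  Nat.sInf_mem (s := {z | E ε (toI c.1) j y z}) ⟨y, (KE_nest c).rfl' j y⟩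

omit [∀ n, Countable (L.Relations n)] in
theorem lst_eq (c : KE ε Φ) {j y z : ℕ} (h : E ε (toI c.1) j y z) :
    lst ε c.1 j y = lst ε c.1 j z := by
  unfold lst
  congr 1
  ext w
  exact ⟨fun h1 => (KE_nest c).trans ((KE_nest c).symm h) h1, fun h1 => (KE_nest c).trans h h1⟩

omit [∀ n, Countable (L.Relations n)] in
theorem lst_lst (c : KE ε Φ) (j y : ℕ) : lst ε c.1 j (lst ε c.1 j y) = lst ε c.1 j y :=
  (lst_eq c (lst_E c j y)).symm

omit [∀ n, Countable (L.Relations n)] in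
theorem E_of_lst (c : KE ε Φ) {j y z : ℕ} (h : lst ε c.1 j y = lst ε c.1 j z) :
    E ε (toI c.1) j y z := by
  have h1 := lst_E c j y
  rw [h] at h1
  exact (KE_nest c).trans h1 ((KE_nest c).symm (lst_E c j z))

/-- The multiplicity predicate. -/
def Mp (ε : Fin k → F2 L) (j : ℕ) (c : Code L) (G : ℕ → ℕ) (x : ℕ) (q : ℕ × ℕ) : Prop :=
  ∃ s : Finset ℕ, s.card = q.2 ∧ (∀ y ∈ s, E ε (toI c) (j + 1) x y ∧ G y = q.1) ∧
    ∀ y ∈ s, ∀ z ∈ s, y ≠ z → ¬ E ε (toI c) j y z

theorem step_ex (hP : ¬ PerfK (KE ε Φ)) (j : ℕ) {G : ℕ → KE ε Φ → ℕ} (hG : Inv a1 G) :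
    ∃ G' : ℕ → KE ε Φ → ℕ, Inv a1 G' ∧ ∀ x x' c c', G' x c = G' x' c' ↔
      ∀ q : ℕ × ℕ, (Mp ε j c.1 (fun y => G y c) x q ↔ Mp ε j c'.1 (fun y => G y c') x' q) := by
  refine num hP (ι := ℕ) (κ := ℕ × ℕ) a1 (fun x c q => Mp ε j c.1 (fun y => G y c) x q) ?_ ?_
  · intro x q
    unfold Mp
    refine Measurable.exists fun s => measurable_const.and (Measurable.and ?_ ?_)
    · exact Measurable.forall fun y => measurable_const.imp ((meas_E' _ _ _).and (hG.1 _ _))
    · exact Measurable.forall fun y => measurable_const.imp (Measurable.forall fun z =>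
        measurable_const.imp (measurable_const.imp (meas_E' _ _ _).not))
  · have one : ∀ (g : ℕ ≃ ℕ) (c c' : KE ε Φ), IsoM g c.1 c'.1 → ∀ x q,
        Mp ε j c.1 (fun y => G y c) x q → Mp ε j c'.1 (fun y => G y c') (g x) q := by
      rintro g c c' hg x q ⟨s, hs, h1, h2⟩
      refine ⟨s.map g.toEmbedding, by rw [Finset.card_map, hs], ?_, ?_⟩
      · intro y hy
        rw [Finset.mem_map_equiv] at hy
        obtain ⟨h3, h4⟩ := h1 _ hy
        refine ⟨?_, ?_⟩
        · rw [E_iso hg, Equiv.apply_symm_apply] at h3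
          exact h3
        · rw [← h4]
          have := hG.2 g c c' hg (g.symm y)
          simp only [a1, Equiv.apply_symm_apply] at this
          exact this.symm
      · intro y hy z hz hyz
        rw [Finset.mem_map_equiv] at hy hz
        have := h2 _ hy _ hz (fun h => hyz (g.symm.injective h))
        rw [E_iso hg, Equiv.apply_symm_apply, Equiv.apply_symm_apply] at this
        exact this
    intro g c c' hg x q
    refine ⟨one g c c' hg x q, fun h => ?_⟩
    have := one g.symm c' c hg.symm (g x) q h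
    rw [Equiv.symm_apply_apply] at this
    exact this

theorem cmp_step (hP : ¬ PerfK (KE ε Φ)) (f0 : ℕ → KE ε Φ → ℕ) (j : ℕ) {G : ℕ → KE ε Φ → ℕ}
    (hG : Inv a1 G) (hC : Cmp f0 j G) : ∃ G', Inv a1 G' ∧ Cmp f0 (j + 1) G' := by
  classical
  obtain ⟨G', hG', hiff⟩ := step_ex hP j hG
  refine ⟨G', hG', ?_, ?_⟩
  · intro c x y hxy
    rw [hiff]
    intro q
    have : ∀ z, E ε (toI c.1) (j + 1) x z ↔ E ε (toI c.1) (j + 1) y z := fun z =>
      ⟨fun h => (KE_nest c).trans ((KE_nest c).symm hxy) h, fun h => (KE_nest c).trans hxy h⟩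
    simp only [Mp, this]
  · intro c c' x x' he
    rw [hiff] at he
    have hcard : ∀ (c : KE ε Φ) (x t n : ℕ), (∃ s : Finset ℕ, s.card = n ∧ ∀ z, z ∈ s →
        z ∈ {z | lst ε c.1 j z = z ∧ E ε (toI c.1) (j + 1) x z ∧ G z c = t}) ↔
        Mp ε j c.1 (fun y => G y c) x (t, n) := by
      intro c x t n
      constructor
      · rintro ⟨s, hs, h1⟩
        refine ⟨s, hs, fun y hy => ⟨(h1 y hy).2.1, (h1 y hy).2.2⟩, fun y hy z hz hyz hE => ?_⟩
        apply hyz
        rw [← (h1 y hy).1, ← (h1 z hz).1]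
        exact lst_eq c hE
      · rintro ⟨s, hs, h1, h2⟩
        refine ⟨s.image (lst ε c.1 j), ?_, ?_⟩
        · rw [Finset.card_image_of_injOn, hs]
          intro y hy z hz hyz
          by_contra hne
          exact h2 y hy z hz hne (E_of_lst c hyz)
        · intro z hz
          rw [Finset.mem_image] at hz
          obtain ⟨y, hy, rfl⟩ := hz
          refine ⟨lst_lst c j y, ?_, ?_⟩
          · exact (KE_nest c).trans (h1 y hy).1 ((KE_nest c).mono (Nat.le_succ j) (lst_E c j y))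
          · exact (hC.1 c _ _ (lst_E c j y)).symm.trans (h1 y hy).2
    have hfib : ∀ t, Nonempty
        ({z | lst ε c.1 j z = z ∧ E ε (toI c.1) (j + 1) x z ∧ G z c = t} ≃
        {z | lst ε c'.1 j z = z ∧ E ε (toI c'.1) (j + 1) x' z ∧ G z c' = t}) := by
      intro t
      refine exists_equiv_of_fin fun n => ?_
      rw [hcard, hcard]
      exact he (t, n)
    let α : Type := {z // lst ε c.1 j z = z ∧ E ε (toI c.1) (j + 1) x z}
    let β : Type := {z // lst ε c'.1 j z = z ∧ E ε (toI c'.1) (j + 1) x' z}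
    have hsub : ∀ (P : ℕ → Prop) (Q : ℕ → Prop) (S : ℕ → Prop), Nonempty
        ({a : {z // P z ∧ Q z} // S a.1} ≃ {z | P z ∧ Q z ∧ S z}) := by
      intro P Q S
      exact ⟨{ toFun := fun a => ⟨a.1.1, a.1.2.1, a.1.2.2, a.2⟩
               invFun := fun b => ⟨⟨b.1, b.2.1, b.2.2.1⟩, b.2.2.2⟩
               left_inv := fun _ => rfl
               right_inv := fun _ => rfl }⟩
    have hfib2 : ∀ t, Nonempty ({a : α // G a.1 c = t} ≃ {b : β // G b.1 c' = t}) := by
      intro t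
      obtain ⟨e1⟩ := hsub (fun z => lst ε c.1 j z = z) (fun z => E ε (toI c.1) (j + 1) x z)
        (fun z => G z c = t)
      obtain ⟨e2⟩ := hfib t
      obtain ⟨e3⟩ := hsub (fun z => lst ε c'.1 j z = z) (fun z => E ε (toI c'.1) (j + 1) x' z)
        (fun z => G z c' = t)
      exact ⟨(e1.trans e2).trans e3.symm⟩
    let e : ∀ t, {a : α // G a.1 c = t} ≃ {b : β // G b.1 c' = t} :=
      fun t => Classical.choice (hfib2 t)
    let H : α ≃ β := Equiv.ofFiberEquiv (f := fun a : α => G a.1 c)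
      (g := fun b : β => G b.1 c') e
    have hH : ∀ a : α, G (H a).1 c' = G a.1 c := fun a => Equiv.ofFiberEquiv_map e a
    have hfa : ∀ a : α, ∃ f : ℕ → ℕ,
        BijOn f {y | E ε (toI c.1) j a.1 y} {y | E ε (toI c'.1) j (H a).1 y} ∧
        (∀ y, E ε (toI c.1) j a.1 y → f0 (f y) c' = f0 y c) ∧
        ∀ i y z, E ε (toI c.1) j a.1 y → E ε (toI c.1) j a.1 z →
          (E ε (toI c'.1) i (f y) (f z) ↔ E ε (toI c.1) i y z) :=
      fun a => hC.2 c c' a.1 (H a).1 (hH a).symm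
    choose fa hfa1 hfa2 hfa3 using hfa
    have hmk : ∀ y, E ε (toI c.1) (j + 1) x y → lst ε c.1 j (lst ε c.1 j y) = lst ε c.1 j y ∧
        E ε (toI c.1) (j + 1) x (lst ε c.1 j y) := fun y hy =>
      ⟨lst_lst c j y, (KE_nest c).trans hy ((KE_nest c).mono (Nat.le_succ j) (lst_E c j y))⟩
    let ra : ℕ → α := fun y => if hy : E ε (toI c.1) (j + 1) x y then ⟨_, hmk y hy⟩
      else ⟨_, hmk x ((KE_nest c).rfl' _ _)⟩
    have hra : ∀ y, E ε (toI c.1) (j + 1) x y → (ra y).1 = lst ε c.1 j y := by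
      intro y hy
      simp only [ra, dif_pos hy]
    have hraE : ∀ y, E ε (toI c.1) (j + 1) x y → E ε (toI c.1) j (ra y).1 y := by
      intro y hy
      rw [hra y hy]
      exact (KE_nest c).symm (lst_E c j y)
    have K1 : ∀ y, E ε (toI c.1) (j + 1) x y →
        E ε (toI c'.1) j (H (ra y)).1 (fa (ra y) y) := by
      intro y hy
      exact (hfa1 (ra y)).mapsTo (hraE y hy)
    have K2 : ∀ y, E ε (toI c.1) (j + 1) x y →
        lst ε c'.1 j (fa (ra y) y) = (H (ra y)).1 := by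
      intro y hy
      rw [← lst_eq c' (K1 y hy)]
      exact (H (ra y)).2.1
    refine ⟨fun y => fa (ra y) y, ⟨?_, ?_, ?_⟩, ?_, ?_⟩
    · intro y hy
      exact (KE_nest c').trans (H (ra y)).2.2 ((KE_nest c').mono (Nat.le_succ j) (K1 y hy))
    · intro y hy z hz hyz
      have h1 : (H (ra y)).1 = (H (ra z)).1 := by
        rw [← K2 y hy, ← K2 z hz]
        exact congrArg _ hyz
      have h2 : ra y = ra z := H.injective (Subtype.ext h1)
      simp only at hyz
      rw [← h2] at hyz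
      refine (hfa1 (ra y)).injOn (hraE y hy) ?_ hyz
      show E ε (toI c.1) j (ra y).1 z
      rw [h2]; exact hraE z hz
    · intro w hw
      let b : β := ⟨lst ε c'.1 j w, lst_lst c' j w,
        (KE_nest c').trans hw ((KE_nest c').mono (Nat.le_succ j) (lst_E c' j w))⟩
      have hb : (H (H.symm b)).1 = lst ε c'.1 j w := by rw [Equiv.apply_symm_apply]
      have hw2 : E ε (toI c'.1) j (H (H.symm b)).1 w := by
        rw [hb]; exact (KE_nest c').symm (lst_E c' j w)
      obtain ⟨y, hy1, hy2⟩ := (hfa1 (H.symm b)).surjOn hw2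
      have hy3 : E ε (toI c.1) (j + 1) x y :=
        (KE_nest c).trans (H.symm b).2.2 ((KE_nest c).mono (Nat.le_succ j) hy1)
      have hy4 : ra y = H.symm b := by
        apply Subtype.ext
        rw [hra y hy3, ← lst_eq c hy1]
        exact (H.symm b).2.1
      refine ⟨y, hy3, ?_⟩
      simp only
      rw [hy4]; exact hy2
    · intro y hy
      exact hfa2 (ra y) y (hraE y hy)
    · intro i y z hy hz
      by_cases hyz : ra y = ra z
      · have hz2 : E ε (toI c.1) j (ra y).1 z := by rw [hyz]; exact hraE z hz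
        have := hfa3 (ra y) i y z (hraE y hy) hz2
        simp only
        rw [← hyz]; exact this
      · rcases Nat.lt_or_ge j i with hi | hi
        · have t1 : E ε (toI c.1) i y z :=
            (KE_nest c).mono hi ((KE_nest c).trans ((KE_nest c).symm hy) hz)
          have m1 : ∀ y, E ε (toI c.1) (j + 1) x y →
              E ε (toI c'.1) (j + 1) x' (fa (ra y) y) := fun y hy =>
            (KE_nest c').trans (H (ra y)).2.2 ((KE_nest c').mono (Nat.le_succ j) (K1 y hy))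
          have t2 : E ε (toI c'.1) i (fa (ra y) y) (fa (ra z) z) :=
            (KE_nest c').mono hi ((KE_nest c').trans ((KE_nest c').symm (m1 y hy)) (m1 z hz))
          exact ⟨fun _ => t1, fun _ => t2⟩
        · refine ⟨fun h => ?_, fun h => ?_⟩
          · exfalso
            have h1 := lst_eq c' ((KE_nest c').mono hi h)
            rw [K2 y hy, K2 z hz] at h1
            exact hyz (H.injective (Subtype.ext h1))
          · exfalso
            have h1 := lst_eq c ((KE_nest c).mono hi h)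
            rw [← hra y hy, ← hra z hz] at h1
            exact hyz (Subtype.ext h1)

theorem cmp_all (hP : ¬ PerfK (KE ε Φ)) (f0 : ℕ → KE ε Φ → ℕ) (hf0 : Inv a1 f0) (j : ℕ) :
    ∃ G, Inv a1 G ∧ Cmp f0 j G := by
  induction j with
  | zero =>
    refine ⟨f0, hf0, ?_, ?_⟩
    · rintro c x y h
      have : x = y := h
      rw [this]
    · intro c c' x x' h
      refine ⟨fun _ => x', ⟨?_, ?_, ?_⟩, ?_, ?_⟩
      · intro y _
        exact rfl
      · intro y hy z hz _
        have h1 : x = y := hy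
        have h2 : x = z := hz
        rw [← h1, ← h2]
      · intro w hw
        have h1 : x' = w := hw
        exact ⟨x, rfl, h1⟩
      · intro y hy
        have h1 : x = y := hy
        rw [← h1]; exact h.symm
      · intro i y z hy hz
        have h1 : x = y := hy
        have h2 : x = z := hz
        rw [← h1, ← h2]
        exact ⟨fun _ => (KE_nest c).rfl' _ _, fun _ => (KE_nest c').rfl' _ _⟩
  | succ j ih =>
    obtain ⟨G, hG, hC⟩ := ih
    exact cmp_step hP f0 j hG hC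

end

end Pool.Agent.Run7.h271.NE
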