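import Pool.Agent.Run7.h271.NE.Cod

set_option autoImplicit false

/-!
The perfect set obtained from the coding configuration.
-/

namespace Pool.Agent.Run7.h271.NE

open FirstOrder Set Topology MeasureTheory Pool.Agent.H565R2.FO2
open Pool.Agent.H565R2.LO2 (PerfK perfK_of_inv)

variable {L : FirstOrder.Language.{0, 0}} {k : ℕ} {ε : Fin k → F2 L} {Φ : F2 L}

theorem meas_Th (ε : Fin k → F2 L) (m : ℕ) {n : ℕ} (R : L.Relations n) (v : Fin n → Bool)
    (p : Fin 4 → ℕ) (y w : ℕ) :
    Measurable (fun c : Code L => Th ε m (toI c) R v p y w) := by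
  have h : ∀ u w, Measurable (fun c : Code L => toI c n R (fun k => pick u w (v k))) :=
    fun u w => meas_toI R _
  unfold Th
  exact (((meas_E ε _ _ _).not.and ((meas_E ε _ _ _).not.and ((h _ _).not.and (h _ _))))).and
    ((((meas_E ε _ _ _).not.and ((meas_E ε _ _ _).not.and ((h _ _).not.and (h _ _))))).and (h _ _))

open Classical in
/-- The invariant of the coding configuration. -/
noncomputable def InvT (ε : Fin k → F2 L) (m : ℕ) {n : ℕ} (R : L.Relations n)
    (v : Fin n → Bool) (p : Fin 4 → ℕ) (c : Code L) : ℕ → Bool := fun k =>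
  decide (∃ y, ∃ s : Finset ℕ, s.card = k + 2 ∧ ∀ w, w ∈ s ↔ Th ε m (toI c) R v p y w)

theorem meas_InvT [∀ n, Countable (L.Relations n)] (ε : Fin k → F2 L) (m : ℕ) {n : ℕ}
    (R : L.Relations n) (v : Fin n → Bool) (p : Fin 4 → ℕ) :
    Measurable (fun c : Code L => InvT ε m R v p c) := by
  rw [measurable_pi_iff]
  intro k
  apply measurable_to_bool
  have : (fun c : Code L => InvT ε m R v p c k) ⁻¹' {true} =
      {c | ∃ y, ∃ s : Finset ℕ, s.card = k + 2 ∧ ∀ w, w ∈ s ↔ Th ε m (toI c) R v p y w} := by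
    ext c; simp [InvT]
  rw [this]
  apply measurableSet_setOfPred.2
  refine Measurable.exists fun y => Measurable.exists fun s => measurable_const.and ?_
  exact Measurable.forall fun w => measurable_const.iff (meas_Th ε m R v p y w)

theorem Th_iso {c c' : Code L} (g : ℕ ≃ ℕ) (hg : IsoM g c c') (ε : Fin k → F2 L) (m : ℕ)
    {n : ℕ} (R : L.Relations n) (v : Fin n → Bool) (p : Fin 4 → ℕ) (y w : ℕ) :
    Th ε m (toI c) R v p y w ↔ Th ε m (toI c') R v (fun i => g (p i)) (g y) (g w) := by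
  have h : ∀ u w, toI c n R (fun k => pick u w (v k)) ↔
      toI c' n R (fun k => pick (g u) (g w) (v k)) := by
    intro u w
    exact Rl_iso g hg (F2.rel R v) u w
  unfold Th
  simp only [h, E_iso hg]

theorem InvT_iso {c c' : Code L} (g : ℕ ≃ ℕ) (hg : IsoM g c c') (ε : Fin k → F2 L) (m : ℕ)
    {n : ℕ} (R : L.Relations n) (v : Fin n → Bool) (p : Fin 4 → ℕ) :
    InvT ε m R v p c = InvT ε m R v (fun i => g (p i)) c' := by
  funext k
  unfold InvT
  congr 1
  apply propext
  constructor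
  · rintro ⟨y, s, hs, hw⟩
    refine ⟨g y, s.map g.toEmbedding, by rw [Finset.card_map, hs], fun w => ?_⟩
    rw [Finset.mem_map_equiv, hw, Th_iso g hg]
    simp
  · rintro ⟨y, s, hs, hw⟩
    refine ⟨g.symm y, s.map g.symm.toEmbedding, by rw [Finset.card_map, hs], fun w => ?_⟩
    rw [Finset.mem_map_equiv, Equiv.symm_symm, hw, Th_iso g hg]
    simp

theorem gm_cont (i j : ℕ) : Continuous (fun x : ℕ → Bool => CfE.gm x i j) := by
  unfold CfE.gm
  split_ifs
  · exact continuous_const
  · exact continuous_const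
  · exact continuous_const
  · exact continuous_const
  · exact (continuous_of_discreteTopology (f := fun b : Bool => b && decide _)).comp
      (continuous_apply (i - 3))

namespace CfE

variable (C : CfE ε Φ)

theorem dl_dep (u w : ℕ) : ∃ (F : Bool → Dat L) (i j : ℕ), ∀ γ, C.dl γ u w = F (γ i j) := by
  classical
  unfold dl
  by_cases h1 : C.sb u w ∧ C.ix u < C.ix w
  · exact ⟨fun _ => C.s (C.bk (C.pr u)) (C.pr u) (C.pr w), 0, 0, fun γ => by rw [if_pos h1]⟩
  · by_cases h2 : C.sb u w ∧ C.ix w < C.ix u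
    · exact ⟨fun _ => (C.s (C.bk (C.pr u)) (C.pr w) (C.pr u)).map not, 0, 0, fun γ => by
        rw [if_neg h1, if_pos h2]⟩
    · by_cases h3 : C.pr u = C.x ∧ C.pr w = C.y ∧ 0 < C.ix u ∧ 0 < C.ix w
      · exact ⟨C.d, C.ix u, C.ix w, fun γ => by rw [if_neg h1, if_neg h2, if_pos h3]⟩
      · by_cases h4 : C.pr u = C.y ∧ C.pr w = C.x ∧ 0 < C.ix u ∧ 0 < C.ix w
        · exact ⟨fun β => (C.d β).map not, C.ix w, C.ix u, fun γ => by
            rw [if_neg h1, if_neg h2, if_neg h3, if_pos h4]⟩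
        · exact ⟨fun _ => dat C.I (subs Φ) (C.pr u) (C.pr w), 0, 0, fun γ => by
            rw [if_neg h1, if_neg h2, if_neg h3, if_neg h4]⟩

open Classical in
theorem cont_incl : Continuous (fun x : ℕ → Bool => ofI (C.Mo (gm x))) := by
  rw [continuous_pi_iff]
  rintro ⟨n, R, t⟩
  by_cases hrep : ∃ (u w : ℕ) (v : Fin n → Bool), t = fun k => pick u w (v k)
  · obtain ⟨u, w, v, rfl⟩ := hrep
    obtain ⟨F, i, j, hF⟩ := C.dl_dep u w
    have : (fun x : ℕ → Bool => ofI (C.Mo (gm x)) ⟨n, R, fun k => pick u w (v k)⟩) =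
        (fun β : Bool => decide ((F β).a n R v)) ∘ fun x => gm x i j := by
      funext x
      simp only [ofI, Function.comp, decide_eq_decide]
      rw [Mo, mkI_iff (C.dl_coh _), hF]
    rw [this]
    exact (continuous_of_discreteTopology).comp (gm_cont i j)
  · have : (fun x : ℕ → Bool => ofI (C.Mo (gm x)) ⟨n, R, t⟩) = fun _ => false := by
      funext x
      simp only [ofI, decide_eq_false_iff_not]
      rintro ⟨u, w, v, ht, -⟩
      exact hrep ⟨u, w, v, ht⟩
    rw [this]
    exact continuous_const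

include C in
theorem perf [∀ n, Countable (L.Relations n)] : PerfK (KE ε Φ) := by
  classical
  obtain ⟨p, h0, h1, h2, h3⟩ := C.par_ex
  refine perfK_of_inv (K := KE ε Φ) (Y := ℕ → Bool) (Z := ℕ → Bool) (ι := Fin 4 → ℕ)
    (fun x => ofI (C.Mo (gm x))) C.cont_incl.measurable ?_
    (fun p x => InvT ε C.m C.R C.v p (ofI (C.Mo (gm x)))) ?_ ?_ ?_
  · intro x
    show toI _ ∈ MdE ε Φ
    rw [toI_ofI]; exact C.Mo_mem _
  · intro p
    exact (meas_InvT ε C.m C.R C.v p).comp C.cont_incl.measurable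
  · rintro y y' ⟨g, hg⟩ p
    exact ⟨fun i => g (p i), InvT_iso g hg ε C.m C.R C.v p⟩
  · intro hc
    have h1 : (Set.univ : Set (ℕ → Bool)).Countable := by
      refine hc.mono ?_
      intro x _
      refine mem_iUnion.2 ⟨p, x, ?_⟩
      funext k
      simp only [InvT]
      rw [Bool.eq_iff_iff, decide_eq_true_iff, toI_ofI]
      exact C.decode h0 h1 h2 h3 x k
    exact Cfg.cantor_unc h1

end CfE

end Pool.Agent.Run7.h271.NE
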